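import Mathlib
import Pool.Agent.W793.SCH.Stm
import Pool.Agent.W793.SCH.Stm2

/-!
# Statements for the Schwinger functions of all gauge invariant local polynomials of lattice Yang-Mills

Definitions and the statements of the independent parts (Wick products, invariance, higher differences
of the lattice Green function).
-/

open MeasureTheory Matrix Filter
open scoped Topology

namespace Pool.Agent.TH940.YM

open Pool.Agent.W793.SCH

noncomputable section

/-! ### Wick products -/

/-- The Wick product of the variables `X u`, `u ∈ l`, with respect to the covariance `A`: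
`:1: = 1` and `:X_a X_l: = X_a :X_l: - ∑_{i ∈ l} A a i :X_{l \ i}:`. -/
def wpr {ι : Type*} (A : ι → ι → ℝ) (X : ι → ℝ) : List ι → ℝ
  | [] => 1
  | a :: l => X a * wpr A X l - ∑ i : Fin l.length, A a (l.get i) * wpr A X (l.eraseIdx i)
termination_by l => l.length
decreasing_by
  · simp
  · simp only [List.length_cons]
    have := List.length_eraseIdx_of_lt i.isLt
    omega

/-- The legs of the field `r`, if the field `r` has degree `m r`. -/
def lr {k : ℕ} (m : Fin k → ℕ) (r : Fin k) : List ((r : Fin k) × Fin (m r)) :=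
  (List.finRange (m r)).map (Sigma.mk r)

/-- The legs of all fields. -/
def al {k : ℕ} (m : Fin k → ℕ) : List ((r : Fin k) × Fin (m r)) :=
  (List.finRange k).flatMap (lr m)

/-- Expansion of the Wick product. -/
def S_W3 : Prop := ∀ (ι : Type) [DecidableEq ι] (A : ι → ι → ℝ) (X : ι → ℝ) (l : List ι), l.Nodup →
  wpr A X l = ∑ S ∈ l.toFinset.powerset, haf (fun u v => -A u v) (l.filter (· ∈ S)) *
    ∏ u ∈ l.toFinset \ S, X u

/-- The expectation of the product of the Wick products: no pairings inside the fields. -/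
def S_W4 : Prop := ∀ (k : ℕ) (m : Fin k → ℕ) (A : (r : Fin k) × Fin (m r) → (r : Fin k) × Fin (m r) → ℝ),
  (∀ u v, A u v = A v u) →
  ∑ S : Finset ((r : Fin k) × Fin (m r)), (∏ r, haf (fun u v => -A u v) ((lr m r).filter (· ∈ S))) *
    haf A ((al m).filter (· ∉ S)) = haf (fun u v => if u.1 = v.1 then 0 else A u v) (al m)

/-- The Wick ordered invariant with coefficients `T`: the variables are `Y j a`, `j` the position,
`a` the colour, `C j j'` is the covariance of the fields at the positions `j`, `j'` (different colours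
are uncorrelated). -/
def WT {n m : ℕ} (C : Fin m → Fin m → ℝ) (T : (Fin m → Fin n) → ℝ) (Y : Fin m → Fin n → ℝ) : ℝ :=
  ∑ c : Fin m → Fin n, T c * wpr (fun j j' => if c j = c j' then C j j' else 0)
    (fun j => Y j (c j)) (List.finRange m)

/-- The Wick ordered invariants are invariant. -/
def S_INV : Prop := ∀ (n m : ℕ) (C : Fin m → Fin m → ℝ) (T : (Fin m → Fin n) → ℝ)
  (O : Fin n → Fin n → ℝ) (Y : Fin m → Fin n → ℝ),
  (∀ b b', ∑ a, O b a * O b' a = if b = b' then 1 else 0) →
  (∀ c, T c = ∑ b : Fin m → Fin n, (∏ j, O (b j) (c j)) * T b) →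
  WT C T (fun j b => ∑ a, O b a * Y j a) = WT C T Y

/-! ### Differences and derivatives -/

/-- The iterated forward differences in the directions of the list. -/
def dF {d : ℕ} : List (Fin d) → ((Fin d → ℤ) → ℝ) → (Fin d → ℤ) → ℝ
  | [], g => g
  | i :: J, g => fun z => dF J g (z + Pi.single i 1) - dF J g z

/-- The iterated partial derivatives in the directions of the list. -/
def pD {d : ℕ} : List (Fin d) → ((Fin d → ℝ) → ℝ) → (Fin d → ℝ) → ℝ
  | [], f => f
  | i :: J, f => fun x => deriv (fun t : ℝ => pD J f (x + Pi.single i t)) 0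

/-- All differences of the lattice Green function at large distances. -/
def S_KERJ : Prop := ∀ d : ℕ, 3 ≤ d → ∀ (J : List (Fin d)) (j l : Fin d) (x : Fin d → ℝ), x ≠ 0 →
  ∀ z : ℕ → Fin d → ℤ, (∀ i, Tendsto (fun q : ℕ => (z q i : ℝ) / q) atTop (𝓝 (x i))) →
    Tendsto (fun q : ℕ => (q : ℝ) ^ (d + J.length) * dF J (DD j l (green d)) (z q)) atTop
      (𝓝 (pD J (hess d j l) x))

end

end Pool.Agent.TH940.YM
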