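import Mathlib
import Pool.Agent.TH940.YM.Stm

/-!
# The derivatives of the Maxwell two-point function
-/

open Filter
open scoped Topology ContDiff

namespace Pool.Agent.TH940.YM

open Pool.Agent.W793.SCH (hess mx)

noncomputable section

variable {d : ℕ}

lemma hess_smooth (j l : Fin d) {x : Fin d → ℝ} (hx : x ≠ 0) :
    ContDiffAt ℝ ∞ (hess d j l) x := by
  have h1 : ContDiffAt ℝ ∞ (fun x : Fin d → ℝ => ∑ i, x i ^ 2) x := by fun_prop
  have h2 : (∑ i, x i ^ 2) ≠ 0 := by
    intro h
    apply hx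
    funext i
    have h3 := (Finset.sum_eq_zero_iff_of_nonneg (fun i _ => sq_nonneg (x i))).1 h i
      (Finset.mem_univ i)
    exact pow_eq_zero_iff (two_ne_zero) |>.1 h3
  have h3 : ContDiffAt ℝ ∞ (fun x : Fin d → ℝ => (∑ i, x i ^ 2) ^ (-((d : ℝ) / 2))) x :=
    h1.rpow_const_of_ne h2
  have h4 : ContDiffAt ℝ ∞ (fun x : Fin d → ℝ => (d : ℝ) * x j * x l) x := by fun_prop
  have h5 : ContDiffAt ℝ ∞ (fun x : Fin d → ℝ => (d : ℝ) * x j * x l / (∑ i, x i ^ 2)) x :=
    h4.div h1 h2
  unfold hess
  exact (contDiffAt_const.mul h3).mul (h5.sub contDiffAt_const)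

lemma line_deriv {g : (Fin d → ℝ) → ℝ} {x : Fin d → ℝ} (hg : DifferentiableAt ℝ g x) (i : Fin d) :
    HasDerivAt (fun t : ℝ => g (x + Pi.single i t)) (fderiv ℝ g x (Pi.single i 1)) 0 := by
  have h1 : HasDerivAt (fun t : ℝ => x + (Pi.single i t : Fin d → ℝ)) (Pi.single i 1) 0 := by
    rw [hasDerivAt_pi]
    intro j
    by_cases h : j = i
    · subst h
      simp only [Pi.add_apply, Pi.single_eq_same]
      simpa using (hasDerivAt_id (0:ℝ)).const_add (x j)
    · simp only [Pi.add_apply, Pi.single_eq_of_ne h]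
      exact hasDerivAt_const _ _
  have h2 : HasFDerivAt g (fderiv ℝ g x) (x + (Pi.single i (0:ℝ) : Fin d → ℝ)) := by
    rw [Pi.single_zero, add_zero]
    exact hg.hasFDerivAt
  exact h2.comp_hasDerivAt (0:ℝ) h1

lemma near_ne {x : Fin d → ℝ} (hx : x ≠ 0) : ∀ᶠ y in 𝓝 x, y ≠ 0 := isOpen_ne.mem_nhds hx

lemma pD_smooth {f : (Fin d → ℝ) → ℝ} (hf : ∀ x, x ≠ 0 → ContDiffAt ℝ ∞ f x) (J : List (Fin d)) :
    ∀ x, x ≠ 0 → ContDiffAt ℝ ∞ (pD J f) x := by
  induction J with
  | nil => exact hf
  | cons i J ih =>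
    intro x hx
    have h1 : ContDiffAt ℝ ∞ (fun y => fderiv ℝ (pD J f) y (Pi.single i 1)) x := by
      have h2 : ContDiffAt ℝ ∞ (fderiv ℝ (pD J f)) x := (ih x hx).fderiv_right (by simp)
      exact h2.clm_apply contDiffAt_const
    refine h1.congr_of_eventuallyEq ?_
    filter_upwards [near_ne hx] with y hy
    exact (line_deriv ((ih y hy).differentiableAt (by simp)) i).deriv

lemma pD_mx {f : Fin d → Fin d → (Fin d → ℝ) → ℝ}
    (hf : ∀ a b x, x ≠ 0 → ContDiffAt ℝ ∞ (f a b) x) (i j p q : Fin d) (J : List (Fin d)) :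
    ∀ x, x ≠ 0 → pD J (fun x => mx (fun a b => f a b x) i j p q) x =
      mx (fun a b => pD J (f a b) x) i j p q := by
  induction J with
  | nil => exact fun x _ => rfl
  | cons s J ih =>
    intro x hx
    have h0 : Tendsto (fun t : ℝ => x + (Pi.single s t : Fin d → ℝ)) (𝓝 0) (𝓝 x) := by
      have h1 : Continuous fun t : ℝ => x + (Pi.single s t : Fin d → ℝ) := by
        refine continuous_pi fun j => ?_
        by_cases h : j = s
        · subst h
          simp only [Pi.add_apply, Pi.single_eq_same]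
          exact continuous_const.add continuous_id
        · simp only [Pi.add_apply, Pi.single_eq_of_ne h]
          exact continuous_const
      have h2 := h1.tendsto 0
      rwa [Pi.single_zero, add_zero] at h2
    have h1 : (fun t : ℝ => pD J (fun x => mx (fun a b => f a b x) i j p q)
        (x + Pi.single s t)) =ᶠ[𝓝 0] fun t : ℝ =>
        mx (fun a b => pD J (f a b) (x + Pi.single s t)) i j p q := by
      filter_upwards [h0.eventually (near_ne hx)] with t ht
      exact ih _ ht
    show deriv (fun t : ℝ => pD J (fun x => mx (fun a b => f a b x) i j p q)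
        (x + Pi.single s t)) 0 = mx (fun a b => deriv (fun t : ℝ => pD J (f a b) (x + Pi.single s t)) 0) i j p q
    rw [h1.deriv_eq]
    have h2 : ∀ a b, HasDerivAt (fun t : ℝ => pD J (f a b) (x + Pi.single s t))
        (deriv (fun t : ℝ => pD J (f a b) (x + Pi.single s t)) 0) 0 := by
      intro a b
      have h3 := line_deriv ((pD_smooth (hf a b) J x hx).differentiableAt (by simp)) s
      exact h3.differentiableAt.hasDerivAt
    have h4 : ∀ (P : Prop) [Decidable P] (a b : Fin d),
        HasDerivAt (fun t : ℝ => if P then pD J (f a b) (x + Pi.single s t) else 0)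
          (if P then deriv (fun t : ℝ => pD J (f a b) (x + Pi.single s t)) 0 else 0) 0 := by
      intro P _ a b
      split_ifs
      · exact h2 a b
      · exact hasDerivAt_const _ _
    have h5 : HasDerivAt (fun t : ℝ => mx (fun a b => pD J (f a b) (x + Pi.single s t)) i j p q)
        (mx (fun a b => deriv (fun t : ℝ => pD J (f a b) (x + Pi.single s t)) 0) i j p q) 0 := by
      unfold mx
      exact (((h4 _ _ _).neg.add (h4 _ _ _)).add (h4 _ _ _)).sub (h4 _ _ _)
    exact h5.deriv

end

end Pool.Agent.TH940.YM
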