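import Mathlib
import Pool.Agent.TH940.YM.Stm

/-!
# The product of the Wick products
-/

open Finset

namespace Pool.Agent.TH940.YM

open Pool.Agent.W793.SCH (haf)

set_option linter.unusedSectionVars false
set_option linter.unusedVariables false

noncomputable section

lemma wpr_map {ι κ : Type*} (f : ι → κ) (A : κ → κ → ℝ) (X : κ → ℝ) (s : ℕ) :
    ∀ l : List ι, l.length ≤ s →
      wpr A X (l.map f) = wpr (fun i j => A (f i) (f j)) (fun i => X (f i)) l := by
  induction s with
  | zero =>
    intro l hl
    have : l = [] := List.length_eq_zero_iff.1 (by omega)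
    subst this
    simp only [List.map_nil, wpr]
  | succ s ih =>
    intro l hl
    cases l with
    | nil => simp only [List.map_nil, wpr]
    | cons a l =>
      simp only [List.map_cons, wpr]
      have hl' : l.length ≤ s := by simpa using hl
      rw [ih l hl']
      congr 1
      refine Fintype.sum_equiv (finCongr (List.length_map f)) _ _ fun i => ?_
      have e1 : (l.map f).eraseIdx i = (l.eraseIdx i).map f := by
        rw [List.eraseIdx_map]
      have e2 : (l.map f).get i = f (l.get (finCongr (List.length_map f) i)) := by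
        simp
      rw [e1, e2, ih _ (by
        have := List.length_eraseIdx_le l i
        omega)]
      rfl

variable {k : ℕ} {m : Fin k → ℕ}

lemma mem_lr {r : Fin k} {u : (r : Fin k) × Fin (m r)} : u ∈ lr m r ↔ u.1 = r := by
  unfold lr
  rw [List.mem_map]
  constructor
  · rintro ⟨j, _, rfl⟩; rfl
  · rintro rfl
    exact ⟨u.2, List.mem_finRange _, rfl⟩

lemma nodup_lr (r : Fin k) : (lr m r).Nodup := by
  unfold lr
  refine List.Nodup.map ?_ (List.nodup_finRange _)
  intro i j hij
  exact eq_of_heq (Sigma.mk.inj hij).2

lemma mem_al (u : (r : Fin k) × Fin (m r)) : u ∈ al m := by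
  unfold al
  rw [List.mem_flatMap]
  exact ⟨u.1, List.mem_finRange _, mem_lr.2 rfl⟩

lemma nodup_al : (al m).Nodup := by
  unfold al
  rw [List.nodup_flatMap]
  refine ⟨fun r _ => nodup_lr r, ?_⟩
  refine (List.nodup_finRange k).imp fun {r r'} hr => ?_
  intro u hu hu'
  exact hr ((mem_lr.1 hu).symm.trans (mem_lr.1 hu'))

lemma prod_wick (hW3 : S_W3) (A : (r : Fin k) × Fin (m r) → (r : Fin k) × Fin (m r) → ℝ)
    (X : (r : Fin k) × Fin (m r) → ℝ) :
    ∏ r, wpr A X (lr m r) = ∑ S : Finset ((r : Fin k) × Fin (m r)),
      (∏ r, haf (fun u v => -A u v) ((lr m r).filter (· ∈ S))) *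
        (((al m).filter (· ∉ S)).map X).prod := by
  classical
  have h1 : ∀ r, wpr A X (lr m r) = ∑ S ∈ (lr m r).toFinset.powerset,
      haf (fun u v => -A u v) ((lr m r).filter (· ∈ S)) * ∏ u ∈ (lr m r).toFinset \ S, X u :=
    fun r => hW3 _ A X (lr m r) (nodup_lr r)
  simp only [h1]
  rw [Finset.prod_univ_sum]
  refine Finset.sum_nbij' (fun x => Finset.univ.filter fun u => u ∈ x u.1)
    (fun S r => (lr m r).toFinset.filter (· ∈ S)) ?_ ?_ ?_ ?_ ?_
  · intro x _
    exact Finset.mem_univ _
  · intro S _
    rw [Fintype.mem_piFinset]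
    intro r
    rw [Finset.mem_powerset]
    exact Finset.filter_subset _ _
  · intro x hx
    rw [Fintype.mem_piFinset] at hx
    funext r
    ext u
    simp only [Finset.mem_filter, List.mem_toFinset, mem_lr, Finset.mem_univ, true_and]
    constructor
    · rintro ⟨h, hu⟩
      rwa [h] at hu
    · intro hu
      have h2 := Finset.mem_powerset.1 (hx r) hu
      rw [List.mem_toFinset, mem_lr] at h2
      exact ⟨h2, by rwa [h2]⟩
  · intro S _
    ext u
    simp only [Finset.mem_filter, List.mem_toFinset, mem_lr, Finset.mem_univ, true_and]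
  · intro x hx
    rw [Fintype.mem_piFinset] at hx
    rw [Finset.prod_mul_distrib]
    congr 1
    · refine Finset.prod_congr rfl fun r _ => ?_
      congr 1
      refine List.filter_congr fun u hu => ?_
      have h2 := mem_lr.1 hu
      simp only [Finset.mem_filter, Finset.mem_univ, true_and, h2]
    · rw [← List.prod_toFinset _ (nodup_al.filter _)]
      rw [← Finset.prod_fiberwise (((al m).filter
        (· ∉ Finset.univ.filter fun u : (r : Fin k) × Fin (m r) => u ∈ x u.1)).toFinset)
        (fun u => u.1) X]
      refine Finset.prod_congr rfl fun r _ => ?_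
      refine Finset.prod_congr ?_ fun _ _ => rfl
      ext u
      simp only [Finset.mem_sdiff, List.mem_toFinset, mem_lr, Finset.mem_filter, List.mem_filter,
        mem_al, true_and, Finset.mem_univ, decide_eq_true_eq, decide_not, Bool.not_eq_true',
        decide_eq_false_iff_not]
      constructor
      · rintro ⟨h, h'⟩
        exact ⟨by rwa [h], h⟩
      · rintro ⟨h, h'⟩
        exact ⟨h', by rwa [h'] at h⟩

end

end Pool.Agent.TH940.YM
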