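import Mathlib
import Pool.Agent.W793.SCH.Lift2
import Pool.Agent.TH940.YM.Stm

/-!
# Characteristic functional of a finite family of components of the field strength, smeared with forms
-/

open MeasureTheory Matrix Pool.Agent.H906R3.YM Pool.Agent.W793.YM Pool.Agent.W793.SCHL
open Pool.Agent.W793.SCH (haf Near pk gK DD mx el TK S_B1 S_B2 S_TR green plaq_moment2)

namespace Pool.Agent.TH940.YM

set_option linter.unusedSectionVars false
set_option linter.unusedVariables false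

noncomputable section

variable {G : Type} [Group G] [TopologicalSpace G] [IsTopologicalGroup G] [CompactSpace G]
  [SecondCountableTopology G] [MeasurableSpace G] [BorelSpace G] (μ : Measure G)
  [IsProbabilityMeasure μ] [μ.IsMulLeftInvariant] [μ.IsMulRightInvariant] [μ.IsInvInvariant]
  {N n : ℕ} {L : LD G N n} {d l : ℕ} [NeZero l] {ι : Type} [Fintype ι]

/-- the test form of a combination of legs: `φ` the forms, `c` the colours -/
def tfG (φ : ι → Fm d l) (c : ι → Fin n) (s : ι → ℝ) : Fin n → Fm d l := fun α =>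
  ∑ u : ι, (if c u = α then s u else 0) • φ u

lemma tfG_asy {φ : ι → Fm d l} (hφ : ∀ u, Asy (φ u)) (c : ι → Fin n) (s : ι → ℝ) (α : Fin n) :
    Asy (tfG φ c s α) := asy_sum _ _ _ fun u _ => hφ u

variable (L) in
/-- a leg -/
def XG (b : ℝ) (φ : ι → Fm d l) (c : ι → Fin n) (u : ι) (U : Ed d l → G) : ℝ :=
  b ^ 2 * ipF (φ u) (Fz L U (c u))

lemma Fs_tfG (φ : ι → Fm d l) (c : ι → Fin n) (s : ι → ℝ) (U : Ed d l → G) :
    Fs L (tfG φ c s) U = ∑ u, s u * ipF (φ u) (Fz L U (c u)) := by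
  classical
  unfold Fs tfG
  simp only [ipF_sum_left, ipF_smul_left]
  rw [Finset.sum_comm]
  refine Finset.sum_congr rfl fun u _ => ?_
  rw [Finset.sum_eq_single (c u)]
  · rw [if_pos rfl]
  · intro α _ hα
    rw [if_neg (fun h => hα h.symm), zero_mul]
  · intro h; exact absurd (Finset.mem_univ _) h

lemma XG_sum (b : ℝ) (φ : ι → Fm d l) (c : ι → Fin n) (s : ι → ℝ) (U : Ed d l → G) :
    ∑ u, s u * XG L b φ c u U = b ^ 2 * Fs L (tfG φ c s) U := by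
  rw [Fs_tfG, Finset.mul_sum]
  refine Finset.sum_congr rfl fun u _ => ?_
  unfold XG; ring

/-- the covariance of the legs -/
def cvG (K : ℕ) (φ : ι → Fm d l) (c : ι → Fin n) (u v : ι) : ℝ :=
  if c u = c v then ipF (TL K (φ u)) (TL K (φ v)) else 0

lemma vK_tfG (K : ℕ) (φ : ι → Fm d l) (c : ι → Fin n) (s : ι → ℝ) :
    vK K (tfG φ c s) = ∑ u, ∑ v, s u * s v * cvG K φ c u v := by
  classical
  rw [vK_eq]
  unfold tfG
  simp only [map_sum, map_smul, ipF_sum_left, ipF_sum_right, ipF_smul_left, ipF_smul_right]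
  rw [Finset.sum_comm]
  refine Finset.sum_congr rfl fun u _ => ?_
  simp only [Finset.mul_sum]
  rw [Finset.sum_comm]
  refine Finset.sum_congr rfl fun v _ => ?_
  unfold cvG
  rw [Finset.sum_eq_single (c u)]
  · rw [if_pos rfl, ipF_comm]
    by_cases h : c u = c v
    · rw [if_pos h, if_pos h.symm]; ring
    · rw [if_neg h, if_neg (fun hc => h hc.symm)]; ring
  · intro α _ hα
    rw [if_neg (fun h => hα h.symm)]; ring
  · intro h; exact absurd (Finset.mem_univ _) h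

lemma cvG_symm (K : ℕ) (φ : ι → Fm d l) (c : ι → Fin n) (u v : ι) :
    cvG K φ c u v = cvG K φ c v u := by
  unfold cvG
  rw [ipF_comm]
  simp only [eq_comm]

lemma cvG_psd (K : ℕ) (φ : ι → Fm d l) (c : ι → Fin n) (s : ι → ℝ) :
    0 ≤ ∑ u, ∑ v, s u * s v * cvG K φ c u v := by
  rw [← vK_tfG, vK_eq]
  exact Finset.sum_nonneg fun α _ => ipF_self_nonneg _

/-- the total mass of a form -/
def n1 (f : Fm d l) : ℝ := ∑ p, ∑ q, ∑ x, |f p q x|

lemma n1_nonneg (f : Fm d l) : 0 ≤ n1 f :=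
  Finset.sum_nonneg fun _ _ => Finset.sum_nonneg fun _ _ => Finset.sum_nonneg fun _ _ => abs_nonneg _

lemma n1_sub (f g : Fm d l) : n1 (f - g) ≤ n1 f + n1 g := by
  unfold n1
  simp only [← Finset.sum_add_distrib]
  exact Finset.sum_le_sum fun p _ => Finset.sum_le_sum fun q _ => Finset.sum_le_sum fun x _ =>
    abs_sub _ _

lemma N1_tfG (φ : ι → Fm d l) (c : ι → Fin n) (s : ι → ℝ) (hs : ∀ u, |s u| ≤ 1) :
    N1 (tfG φ c s) ≤ ∑ u, n1 (φ u) := by
  classical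
  unfold N1 tfG
  have h3 : ∀ (α : Fin n) (p q : Fin d) (x : St d l),
      |(∑ u : ι, (if c u = α then s u else 0) • φ u) p q x| ≤
        ∑ u : ι, (if c u = α then 1 else 0) * |φ u p q x| := by
    intro α p q x
    rw [Finset.sum_apply, Finset.sum_apply, Finset.sum_apply]
    refine (Finset.abs_sum_le_sum_abs _ _).trans (Finset.sum_le_sum fun u _ => ?_)
    simp only [Pi.smul_apply, smul_eq_mul]
    rw [abs_mul]
    refine mul_le_mul_of_nonneg_right ?_ (abs_nonneg _)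
    split_ifs
    · exact hs u
    · simp
  calc _ ≤ ∑ α : Fin n, ∑ p : Fin d, ∑ q : Fin d, ∑ x : St d l, ∑ u : ι,
        (if c u = α then 1 else 0) * |φ u p q x| :=
        Finset.sum_le_sum fun α _ => Finset.sum_le_sum fun p _ => Finset.sum_le_sum fun q _ =>
          Finset.sum_le_sum fun x _ => h3 α p q x
    _ = ∑ u : ι, ∑ α : Fin n, (if c u = α then 1 else 0) * n1 (φ u) := by
        have e1 : ∀ α : Fin n, ∑ p : Fin d, ∑ q : Fin d, ∑ x : St d l, ∑ u : ι,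
            (if c u = α then (1:ℝ) else 0) * |φ u p q x| =
            ∑ u : ι, (if c u = α then 1 else 0) * n1 (φ u) := by
          intro α
          rw [swap4]
          unfold n1
          simp only [Finset.mul_sum]
        simp only [e1]
        rw [Finset.sum_comm]
    _ = ∑ u : ι, n1 (φ u) := by
        refine Finset.sum_congr rfl fun u _ => ?_
        rw [← Finset.sum_mul, Finset.sum_ite_eq, if_pos (Finset.mem_univ _), one_mul]

lemma tfG_SW {φ : ι → Fm d l} {c : ι → Fin n} {s : ι → ℝ} {lo hi : ℕ}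
    (hφ : ∀ u p q, SW lo hi (φ u p q)) (α : Fin n) (p q : Fin d) : SW lo hi (tfG φ c s α p q) := by
  unfold tfG
  rw [Finset.sum_apply, Finset.sum_apply]
  exact SW.sum _ fun u _ => (hφ u p q).smul _

lemma XG_cont (b : ℝ) (φ : ι → Fm d l) (c : ι → Fin n) (u : ι) :
    Continuous (XG L b φ c u : (Ed d l → G) → ℝ) := by
  unfold XG ipF ip2
  refine continuous_const.mul (continuous_const.mul (continuous_finsetSum _ fun j _ =>
    continuous_finsetSum _ fun k _ => continuous_finsetSum _ fun x _ => ?_))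
  exact continuous_const.mul (Fz_cont' (c u) j k x)

/-- the hypotheses of the abstract theorem, for general forms -/
theorem near_gen (hd : 3 ≤ d) (κ₀ : ℕ) (hκ : 1 ≤ κ₀) (Λ : ℝ) (hΛ : 0 ≤ Λ) :
    ∃ Cδ : ℝ, 0 ≤ Cδ ∧ ∀ a : ℕ, 1 ≤ a → ∀ b : ℝ,
      (a : ℝ) ^ (4 * κ₀ * (2 * d + 3) + κ₀) ≤ b →
      ∀ (m : ℕ) [NeZero m], 2 * (3 * a) ^ (4 * κ₀) ≤ m →
      ∀ (ι : Type) [Fintype ι] (φ : ι → Fm d (2 * m)) (c : ι → Fin n), (∀ u, Asy (φ u)) →
      (∀ u p q, SW ((3 * a) ^ (4 * κ₀) + 2) (2 * (3 * a) ^ (4 * κ₀) + 2) (φ u p q)) →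
      ∑ u, n1 (φ u) ≤ Λ → ∀ (p : ℕ) (M : ℝ), 1 ≤ M →
      (∀ u v, |cvG ((3 * a) ^ (4 * κ₀)) φ c u v| ≤ M) →
      (∀ u, ∫ U, |XG L b φ c u U| ^ p ∂(PT μ L (b ^ 4)) ≤ M) →
        Near (PT μ L (b ^ 4) : Measure (Ed d (2 * m) → G)) (XG L b φ c)
          (cvG ((3 * a) ^ (4 * κ₀)) φ c) p M (Cδ / a ^ κ₀) := by
  obtain ⟨CL, hCL, hL⟩ := Pool.Agent.W793.YM.lattice μ (L := L) hd
  obtain ⟨e, he⟩ : ∃ e, e = 4 * κ₀ * (2 * d + 3) + κ₀ := ⟨_, rfl⟩
  refine ⟨CL * (Λ + 3 ^ (4 * κ₀ * (2 * d + 3)) * (1 + Λ) ^ 2), by positivity,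
    fun a ha b hab m _ hm ι _ φ c hφ hSW hn1 p M hM hcov hmom => ?_⟩
  rw [← he] at hab
  have hd1 : 1 ≤ d := by omega
  have ha1 : (1:ℝ) ≤ a := by exact_mod_cast ha
  have ha0 : (0:ℝ) < a := by linarith
  have hb : 1 ≤ b := le_trans (one_le_pow₀ ha1) hab
  have hb0 : 0 < b := by linarith
  obtain ⟨K, hK⟩ : ∃ K, K = (3 * a) ^ (4 * κ₀) := ⟨_, rfl⟩
  rw [← hK] at hm hSW hcov ⊢
  have hK81 : 81 * a ≤ K := by
    rw [hK]
    calc 81 * a ≤ (3 * a) ^ 4 := by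
          have : (3 * a) ^ 4 = 81 * a * (a ^ 3) := by ring
          rw [this]
          exact Nat.le_mul_of_pos_right _ (by positivity)
      _ ≤ (3 * a) ^ (4 * κ₀) := Nat.pow_le_pow_right (by omega) (by omega)
  have hK1 : 1 ≤ K := by omega
  have hK1' : (1:ℝ) ≤ K := by exact_mod_cast hK1
  have hKm : 3 * K + 5 < 2 * m := by omega
  have hKr : (K : ℝ) = (3 * a) ^ (4 * κ₀) := by rw [hK]; push_cast; rfl
  have hsq : Real.sqrt K = (3 * a) ^ (2 * κ₀) := by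
    rw [hKr, show (3 * (a:ℝ)) ^ (4 * κ₀) = ((3 * a) ^ (2 * κ₀)) ^ 2 by rw [← pow_mul]; congr 1; ring]
    exact Real.sqrt_sq (by positivity)
  have hchar : ∀ s : ι → ℝ, (∀ u, |s u| ≤ 1) →
      |EX μ L (b ^ 4) (fun U : Ed d (2 * m) → G => Real.cos (b ^ 2 * Fs L (tfG φ c s) U)) -
        Real.exp (-(vK K (tfG φ c s) / 2))| ≤
          CL * (Λ + 3 ^ (4 * κ₀ * (2 * d + 3)) * (1 + Λ) ^ 2) / a ^ κ₀ ∧
      |EX μ L (b ^ 4) (fun U : Ed d (2 * m) → G => Real.sin (b ^ 2 * Fs L (tfG φ c s) U))| ≤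
          CL * (Λ + 3 ^ (4 * κ₀ * (2 * d + 3)) * (1 + Λ) ^ 2) / a ^ κ₀ := by
    intro s hs
    have h1 := hL b hb m K hK1 hKm (tfG φ c s) (fun α => tfG_asy hφ _ _ _)
      (fun α j k => tfG_SW hSW α j k)
    have hN := (N1_tfG φ c s hs (n := n)).trans hn1
    have hN0 := N1_nonneg (tfG φ c s)
    obtain ⟨N₁, hN₁⟩ : ∃ N₁, N₁ = N1 (tfG φ c s) := ⟨_, rfl⟩
    rw [← hN₁] at h1 hN hN0
    have e1 : N₁ / Real.sqrt (Real.sqrt K ^ (d - 2)) ≤ Λ / a ^ κ₀ := by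
      have e2 : (a:ℝ) ^ κ₀ ≤ Real.sqrt (Real.sqrt K ^ (d - 2)) := by
        refine Real.le_sqrt_of_sq_le ?_
        have e3 : (1:ℝ) ≤ Real.sqrt K := Real.one_le_sqrt.2 hK1'
        calc ((a:ℝ) ^ κ₀) ^ 2 = a ^ (2 * κ₀) := by rw [← pow_mul]; congr 1; ring
          _ ≤ (3 * a) ^ (2 * κ₀) := pow_le_pow_left₀ ha0.le (by linarith) _
          _ = Real.sqrt K := hsq.symm
          _ = Real.sqrt K ^ 1 := (pow_one _).symm
          _ ≤ Real.sqrt K ^ (d - 2) := pow_le_pow_right₀ e3 (by omega)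
      exact div_le_div₀ hΛ hN (by positivity) e2
    have e4 : (K:ℝ) ^ (2 * d + 3) * (1 + N₁) ^ 2 / b ≤
        3 ^ (4 * κ₀ * (2 * d + 3)) * (1 + Λ) ^ 2 / a ^ κ₀ := by
      have e5 : (K:ℝ) ^ (2 * d + 3) = 3 ^ (4 * κ₀ * (2 * d + 3)) * a ^ (4 * κ₀ * (2 * d + 3)) := by
        rw [hKr, ← pow_mul, mul_pow]
      have e6 : (1 + N₁) ^ 2 ≤ (1 + Λ) ^ 2 := pow_le_pow_left₀ (by linarith) (by linarith) 2
      rw [div_le_div_iff₀ hb0 (by positivity)]
      calc (K:ℝ) ^ (2 * d + 3) * (1 + N₁) ^ 2 * (a:ℝ) ^ κ₀ ≤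
          (K:ℝ) ^ (2 * d + 3) * (1 + Λ) ^ 2 * (a:ℝ) ^ κ₀ := by
            gcongr
        _ = (3:ℝ) ^ (4 * κ₀ * (2 * d + 3)) * (1 + Λ) ^ 2 * (a:ℝ) ^ e := by
            rw [e5, he, pow_add]; ring
        _ ≤ (3:ℝ) ^ (4 * κ₀ * (2 * d + 3)) * (1 + Λ) ^ 2 * b :=
            mul_le_mul_of_nonneg_left hab (by positivity)
    have e7 : CL * (N₁ / Real.sqrt (Real.sqrt K ^ (d - 2)) + (K:ℝ) ^ (2 * d + 3) * (1 + N₁) ^ 2 / b) ≤
        CL * (Λ + 3 ^ (4 * κ₀ * (2 * d + 3)) * (1 + Λ) ^ 2) / a ^ κ₀ := by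
      calc _ ≤ CL * (Λ / a ^ κ₀ + 3 ^ (4 * κ₀ * (2 * d + 3)) * (1 + Λ) ^ 2 / a ^ κ₀) :=
            mul_le_mul_of_nonneg_left (add_le_add e1 e4) hCL.le
        _ = _ := by ring
    exact ⟨h1.1.trans e7, h1.2.trans e7⟩
  refine ⟨fun u => (XG_cont b φ c u).measurable, ?_, hM, by positivity, ?_, ?_, hcov, hmom, ?_, ?_⟩
  · -- bounded
    have h1 : ∀ u, ∃ B, ∀ U : Ed d (2 * m) → G, |XG L b φ c u U| ≤ B :=
      fun u => bdd_cont (XG_cont b φ c u)
    choose B hB' using h1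
    refine ⟨∑ u, |B u|, fun u U => (hB' u U).trans ((le_abs_self _).trans ?_)⟩
    exact Finset.single_le_sum (f := fun u => |B u|) (fun u _ => abs_nonneg _) (Finset.mem_univ u)
  · intro u v
    exact cvG_symm _ _ _ _ _
  · intro s
    exact cvG_psd _ _ _ _
  · intro s hs
    have h1 := (hchar s hs).1
    rw [EX_int, vK_tfG] at h1
    simp only [XG_sum]
    have e1 : ∀ S : ℝ, -(S / 2) = -(1 / 2 * S) := fun S => by ring
    rw [e1] at h1
    exact h1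
  · intro s hs
    have h1 := (hchar s hs).2
    rw [EX_int] at h1
    simp only [XG_sum]
    exact h1

end

end Pool.Agent.TH940.YM
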