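import Mathlib
import Pool.Agent.TH940.YM.Gen
import Pool.Agent.W793.SCH.Mom2

/-!
# The differences of the field strength: forms, covariances and moments
-/

open MeasureTheory Matrix Pool.Agent.H906R3.YM Pool.Agent.W793.YM Pool.Agent.W793.SCHL
open Pool.Agent.W793.SCH (haf Near pk gK DD mx el TK S_B1 S_B2 S_TR green plaq_moment2)

namespace Pool.Agent.TH940.YM

set_option linter.unusedSectionVars false
set_option linter.unusedVariables false

noncomputable section

variable {G : Type} [Group G] [TopologicalSpace G] [IsTopologicalGroup G] [CompactSpace G]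
  [SecondCountableTopology G] [MeasurableSpace G] [BorelSpace G] (μ : Measure G)
  [IsProbabilityMeasure μ] [μ.IsMulLeftInvariant] [μ.IsMulRightInvariant] [μ.IsInvInvariant]
  {N n : ℕ} {L : LD G N n} {d l : ℕ} [NeZero l]

section forms

/-- differences of the elementary form -/
def elD : List (Fin d) → Fin d × Fin d → St d l → Fm d l
  | [], p, y => el p.1 p.2 y
  | i :: J, p, y => elD J p (y + eT i) - elD J p y

/-- iterated forward differences on the torus -/
def gD : List (Fin d) → (St d l → ℝ) → St d l → ℝ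
  | [], g, y => g y
  | i :: J, g, y => gD J g (y + eT i) - gD J g y

lemma elD_asy (J : List (Fin d)) (p : Fin d × Fin d) (y : St d l) : Asy (elD J p y) := by
  induction J generalizing y with
  | nil => exact el_asy _ _ _
  | cons i J ih =>
    intro j k
    show elD J p (y + eT i) j k - elD J p y j k = -(elD J p (y + eT i) k j - elD J p y k j)
    rw [ih (y + eT i) j k, ih y j k]
    abel

lemma ipF_elD {g : Fm d l} (hg : Asy g) (J : List (Fin d)) (p : Fin d × Fin d) (y : St d l) :
    ipF (elD J p y) g = gD J (g p.1 p.2) y := by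
  induction J generalizing y with
  | nil => exact ipF_el hg _ _ _
  | cons i J ih =>
    show ipF (elD J p (y + eT i) - elD J p y) g = _
    rw [ipF_sub_left, ih, ih]
    rfl

lemma n1_el (j k : Fin d) (y : St d l) : n1 (el j k y) ≤ 2 := by
  classical
  have h1 : ∀ p q x, |el j k y p q x| ≤ (if p = j ∧ q = k ∧ x = y then 1 else 0) +
      (if p = k ∧ q = j ∧ x = y then (1:ℝ) else 0) := by
    intro p q x
    unfold el
    refine (abs_sub _ _).trans (le_of_eq ?_)
    congr 1 <;> (split_ifs <;> simp)
  have h2 : ∀ (j k' : Fin d), ∑ p : Fin d, ∑ q : Fin d, ∑ x : St d l,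
      (if p = j ∧ q = k' ∧ x = y then (1:ℝ) else 0) = 1 := by
    intro j k'
    rw [Finset.sum_eq_single j]
    · rw [Finset.sum_eq_single k']
      · rw [Finset.sum_eq_single y]
        · simp
        · intro x _ hx; rw [if_neg (fun hc => hx hc.2.2)]
        · intro h; exact absurd (Finset.mem_univ _) h
      · intro q _ hq
        exact Finset.sum_eq_zero fun x _ => if_neg (fun hc => hq hc.2.1)
      · intro h; exact absurd (Finset.mem_univ _) h
    · intro p _ hp
      exact Finset.sum_eq_zero fun q _ => Finset.sum_eq_zero fun x _ => if_neg (fun hc => hp hc.1)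
    · intro h; exact absurd (Finset.mem_univ _) h
  unfold n1
  calc ∑ p : Fin d, ∑ q : Fin d, ∑ x, |el j k y p q x| ≤ ∑ p : Fin d, ∑ q : Fin d, ∑ x,
        ((if p = j ∧ q = k ∧ x = y then (1:ℝ) else 0) + (if p = k ∧ q = j ∧ x = y then (1:ℝ) else 0)) :=
        Finset.sum_le_sum fun p _ => Finset.sum_le_sum fun q _ => Finset.sum_le_sum fun x _ => h1 p q x
    _ = 2 := by
        simp only [Finset.sum_add_distrib]
        rw [h2 j k, h2 k j]; norm_num

lemma n1_elD (J : List (Fin d)) (p : Fin d × Fin d) (y : St d l) :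
    n1 (elD J p y) ≤ 2 ^ (J.length + 1) := by
  induction J generalizing y with
  | nil => simpa [elD] using n1_el p.1 p.2 y
  | cons i J ih =>
    show n1 (elD J p (y + eT i) - elD J p y) ≤ _
    have h1 := n1_sub (elD J p (y + eT i)) (elD J p y)
    have h2 := ih (y + eT i)
    have h3 := ih y
    rw [List.length_cons, pow_succ]
    linarith

lemma elD_SW (J : List (Fin d)) (p : Fin d × Fin d) {Y : Fin d → ℤ} {lo hi : ℕ} (hl : hi ≤ l)
    (h1 : ∀ i, (lo : ℤ) ≤ Y i) (h2 : ∀ i, Y i + J.length < hi) (a b : Fin d) :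
    SW lo hi (elD J p (zt l Y) a b) := by
  induction J generalizing Y with
  | nil =>
    intro x hx i
    have hx' : x = zt l Y := by
      by_contra hc
      apply hx
      show el p.1 p.2 (zt l Y) a b x = 0
      unfold el
      rw [if_neg (fun h => hc h.2.2), if_neg (fun h => hc h.2.2)]; ring
    subst hx'
    have h3 := wv_zt (l := l) (z := Y) (fun i => by
      have e1 := h1 i
      have e2 := h2 i
      simp only [List.length_nil, Nat.cast_zero, add_zero] at e2
      constructor
      · have : (0:ℤ) ≤ lo := Int.natCast_nonneg _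
        omega
      · have : (hi : ℤ) ≤ l := by exact_mod_cast hl
        omega) i
    have e1 := h1 i
    have e2 := h2 i
    simp only [List.length_nil, Nat.cast_zero, add_zero] at e2
    omega
  | cons i J ih =>
    show SW lo hi (elD J p (zt l Y + eT i) a b - elD J p (zt l Y) a b)
    rw [← zt_add]
    refine SW.sub (ih ?_ ?_) (ih h1 ?_)
    · intro i'
      have := h1 i'
      rw [Pi.add_apply]
      have h4 : (0:ℤ) ≤ (Pi.single i 1 : Fin d → ℤ) i' := by
        by_cases h : i' = i
        · subst h; simp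
        · simp [h]
      omega
    · intro i'
      have := h2 i'
      simp only [List.length_cons] at this
      push_cast at this
      rw [Pi.add_apply]
      have h4 : (Pi.single i 1 : Fin d → ℤ) i' ≤ 1 := by
        by_cases h : i' = i
        · subst h; simp
        · simp [h]
      omega
    · intro i'
      have := h2 i'
      simp only [List.length_cons] at this
      push_cast at this
      omega

end forms

section cov

/-- The iterated differences with respect to the second point. -/
def dB : List (Fin d) → ((Fin d → ℤ) → ℝ) → (Fin d → ℤ) → ℝ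
  | [], h => h
  | i :: J, h => fun z => dB J h (z - Pi.single i 1) - dB J h z

/-- the covariance of two legs, built from the function `g` -/
def mcD (g : (Fin d → ℤ) → ℝ) (J : List (Fin d)) (p : Fin d × Fin d) (J' : List (Fin d))
    (p' : Fin d × Fin d) : (Fin d → ℤ) → ℝ :=
  dF J (dB J' fun z => mx (fun a b => DD a b g z) p.1 p.2 p'.1 p'.2)

lemma single_abs (i i' : Fin d) : |(Pi.single i 1 : Fin d → ℤ) i'| ≤ 1 := by
  by_cases h : i' = i
  · subst h; simp
  · simp [h]

lemma cov_eq (hB : S_B2) (hd : 1 ≤ d) {K : ℕ} (J : List (Fin d)) (p : Fin d × Fin d)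
    (J' : List (Fin d)) (p' : Fin d × Fin d) {Y Y' : Fin d → ℤ}
    (h : ∀ i, |Y i - Y' i| + J.length + J'.length + 2 * K + 2 < l) :
    ipF (TL K (elD J p (zt l Y))) (TL K (elD J' p' (zt l Y'))) =
      mcD (gK d K) J p J' p' (Y - Y') := by
  induction J generalizing Y with
  | nil =>
    unfold mcD
    show _ = dB J' (fun z => mx (fun a b => DD a b (gK d K) z) p.1 p.2 p'.1 p'.2) (Y - Y')
    induction J' generalizing Y' with
    | nil =>
      exact hB d l K hd p.1 p.2 p'.1 p'.2 Y Y' (fun i => by
        have := h i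
        simpa using this)
    | cons i J' ih =>
      have e1 : elD (i :: J') p' (zt l Y') = elD J' p' (zt l (Y' + Pi.single i 1)) -
          elD J' p' (zt l Y') := by
        rw [zt_add]; rfl
      rw [e1, map_sub, ipF_comm, ipF_sub_left, ipF_comm _ (TL K (elD [] p (zt l Y))),
        ipF_comm _ (TL K (elD [] p (zt l Y))), ih, ih]
      · show _ = dB J' _ (Y - Y' - Pi.single i 1) - dB J' _ (Y - Y')
        rw [sub_sub]
      · intro i'
        have := h i'
        simp only [List.length_cons] at this
        push_cast at this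
        linarith
      · intro i'
        have h3 := h i'
        simp only [List.length_cons] at h3
        push_cast at h3
        have h4 := single_abs i i'
        have h5 : |Y i' - (Y' + (Pi.single i 1 : Fin d → ℤ)) i'| ≤ |Y i' - Y' i'| +
            |(Pi.single i 1 : Fin d → ℤ) i'| := by
          rw [Pi.add_apply, ← sub_sub]
          exact abs_sub _ _
        linarith
  | cons i J ih =>
    have e1 : elD (i :: J) p (zt l Y) = elD J p (zt l (Y + Pi.single i 1)) -
        elD J p (zt l Y) := by
      rw [zt_add]; rfl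
    rw [e1, map_sub, ipF_sub_left, ih, ih]
    · show _ = dF J _ (Y - Y' + Pi.single i 1) - dF J _ (Y - Y')
      unfold mcD
      rw [sub_add_eq_add_sub]
    · intro i'
      have := h i'
      simp only [List.length_cons] at this
      push_cast at this
      linarith
    · intro i'
      have h3 := h i'
      simp only [List.length_cons] at h3
      push_cast at h3
      have h4 := single_abs i i'
      have h5 : |(Y + (Pi.single i 1 : Fin d → ℤ)) i' - Y' i'| ≤ |Y i' - Y' i'| +
          |(Pi.single i 1 : Fin d → ℤ) i'| := by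
        rw [Pi.add_apply, add_sub_right_comm]
        exact abs_add_le _ _
      linarith

lemma dF_le {g : (Fin d → ℤ) → ℝ} {C : ℝ} (hg : ∀ z, |g z| ≤ C) (J : List (Fin d))
    (z : Fin d → ℤ) : |dF J g z| ≤ 2 ^ J.length * C := by
  induction J generalizing z with
  | nil => simpa [dF] using hg z
  | cons i J ih =>
    show |dF J g (z + Pi.single i 1) - dF J g z| ≤ _
    have h1 := abs_sub (dF J g (z + Pi.single i 1)) (dF J g z)
    have h2 := ih (z + Pi.single i 1)
    have h3 := ih z
    rw [List.length_cons, pow_succ]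
    linarith

lemma dB_le {g : (Fin d → ℤ) → ℝ} {C : ℝ} (hg : ∀ z, |g z| ≤ C) (J : List (Fin d))
    (z : Fin d → ℤ) : |dB J g z| ≤ 2 ^ J.length * C := by
  induction J generalizing z with
  | nil => simpa [dB] using hg z
  | cons i J ih =>
    show |dB J g (z - Pi.single i 1) - dB J g z| ≤ _
    have h1 := abs_sub (dB J g (z - Pi.single i 1)) (dB J g z)
    have h2 := ih (z - Pi.single i 1)
    have h3 := ih z
    rw [List.length_cons, pow_succ]
    linarith

lemma dF_sub (g g' : (Fin d → ℤ) → ℝ) (J : List (Fin d)) (z : Fin d → ℤ) :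
    dF J g z - dF J g' z = dF J (fun z => g z - g' z) z := by
  induction J generalizing z with
  | nil => rfl
  | cons i J ih =>
    show (dF J g (z + Pi.single i 1) - dF J g z) - (dF J g' (z + Pi.single i 1) - dF J g' z) =
      dF J _ (z + Pi.single i 1) - dF J _ z
    rw [← ih, ← ih]; ring

lemma dB_sub (g g' : (Fin d → ℤ) → ℝ) (J : List (Fin d)) (z : Fin d → ℤ) :
    dB J g z - dB J g' z = dB J (fun z => g z - g' z) z := by
  induction J generalizing z with
  | nil => rfl
  | cons i J ih =>
    show (dB J g (z - Pi.single i 1) - dB J g z) - (dB J g' (z - Pi.single i 1) - dB J g' z) =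
      dB J _ (z - Pi.single i 1) - dB J _ z
    rw [← ih, ← ih]; ring

lemma mcD_le {g : (Fin d → ℤ) → ℝ} {C : ℝ} (hC : 0 ≤ C) (hg : ∀ z, |g z| ≤ C)
    (J : List (Fin d)) (p : Fin d × Fin d) (J' : List (Fin d)) (p' : Fin d × Fin d)
    (z : Fin d → ℤ) : |mcD g J p J' p' z| ≤ 2 ^ J.length * (2 ^ J'.length * (16 * C)) := by
  unfold mcD
  refine dF_le (fun z => dB_le (fun z => ?_) J' z) J z
  refine (mx_le (C := 4 * C) (by positivity) (fun a b => DD_le hg a b _) _ _ _ _).trans ?_
  linarith

lemma mcD_sub (g g' : (Fin d → ℤ) → ℝ) (J : List (Fin d)) (p : Fin d × Fin d) (J' : List (Fin d))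
    (p' : Fin d × Fin d) (z : Fin d → ℤ) :
    mcD g J p J' p' z - mcD g' J p J' p' z = mcD (fun z => g z - g' z) J p J' p' z := by
  unfold mcD
  rw [dF_sub]
  congr 1
  funext z
  rw [dB_sub]
  congr 1
  funext z
  rw [mx_sub]
  congr 1
  funext a b
  exact DD_sub _ _ _ _ _

end cov

section moments

/-- moments of the deviation of a plaquette -/
theorem dv_mom (r e : ℕ) : ∃ C : ℝ, 0 < C ∧ ∀ b : ℝ, 1 ≤ b → ∀ a : ℝ, 1 ≤ a → b ≤ (2 * a) ^ e →
    ∀ (d m : ℕ) [NeZero m], 2 ≤ m → ∀ (y : St d (2 * m)) (p q : Fin d), p ≠ q →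
      EX μ L (b ^ 4) (fun U : Ed d (2 * m) → G => (b ^ 2 * dv L (plqT U y p q)) ^ (2 * r)) ≤
        C * a := by
  obtain ⟨C, hC, h⟩ := plaq_moment2 μ (L := L) r e
  refine ⟨2 ^ r * C, by positivity, fun b hb a ha hba d m _ hm y p q hpq => ?_⟩
  have e1 : (fun U : Ed d (2 * m) → G => (b ^ 2 * dv L (plqT U y p q)) ^ (2 * r)) =
      fun U => 2 ^ r * (b ^ 4 * we L (plqT U y p q)) ^ r := by
    funext U
    rw [pow_mul, mul_pow, dv_sq, ← mul_pow]
    congr 1
    ring
  rw [e1, EX_smul]
  have h2 : EX μ L (b ^ 4) (fun U : Ed d (2 * m) → G =>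
      (b ^ 4 * we L (plqT U y p q)) ^ r) ≤ C * a := by
    unfold EX
    rw [div_le_iff₀ (Zt_pos μ _)]
    exact h b hb a ha hba d m hm y _ _ hpq
  calc 2 ^ r * EX μ L (b ^ 4) (fun U : Ed d (2 * m) → G =>
      (b ^ 4 * we L (plqT U y p q)) ^ r) ≤ 2 ^ r * (C * a) :=
        mul_le_mul_of_nonneg_left h2 (by positivity)
    _ = _ := by ring

lemma Fz_abs_le (U : Ed d l → G) (a : Fin n) (p q : Fin d) (y : St d l) :
    |Fz L U a p q y| ≤ dv L (plqT U y p q) := by
  unfold Fz
  refine (fi_le _ _).trans ?_
  rw [dv_conj]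

lemma gD_cont (J : List (Fin d)) {g : (Ed d l → G) → St d l → ℝ} (hg : ∀ y, Continuous fun U => g U y)
    (y : St d l) : Continuous fun U => gD J (g U) y := by
  induction J generalizing y with
  | nil => exact hg y
  | cons i J ih => exact (ih _).sub (ih _)

lemma pow_sub_le (x y : ℝ) (p : ℕ) : |x - y| ^ p ≤ 2 ^ p * (|x| ^ p + |y| ^ p) := by
  have h1 : |x - y| ≤ 2 * max |x| |y| := by
    have := abs_sub x y
    have h2 := le_max_left |x| |y|
    have h3 := le_max_right |x| |y|
    linarith
  calc |x - y| ^ p ≤ (2 * max |x| |y|) ^ p := pow_le_pow_left₀ (abs_nonneg _) h1 _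
    _ = 2 ^ p * (max |x| |y|) ^ p := by rw [mul_pow]
    _ ≤ _ := by
        refine mul_le_mul_of_nonneg_left ?_ (by positivity)
        rcases le_total |x| |y| with h | h
        · rw [max_eq_right h]
          linarith [pow_nonneg (abs_nonneg x) p]
        · rw [max_eq_left h]
          linarith [pow_nonneg (abs_nonneg y) p]

/-- moments of the differences of the field strength -/
theorem gD_mom (r e : ℕ) (J : List (Fin d)) : ∃ C : ℝ, 0 < C ∧ ∀ b : ℝ, 1 ≤ b → ∀ a : ℝ, 1 ≤ a →
    b ≤ (2 * a) ^ e → ∀ (m : ℕ) [NeZero m], 2 ≤ m → ∀ (α : Fin n) (p : Fin d × Fin d)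
      (y : St d (2 * m)), p.1 ≠ p.2 →
      EX μ L (b ^ 4) (fun U : Ed d (2 * m) → G =>
        |b ^ 2 * gD J (Fz L U α p.1 p.2) y| ^ (2 * r)) ≤ C * a := by
  induction J with
  | nil =>
    obtain ⟨C, hC, h⟩ := dv_mom μ (L := L) r e
    refine ⟨C, hC, fun b hb a ha hba m _ hm α p y hp => ?_⟩
    refine le_trans (EX_mono μ ?_ ?_ fun U => ?_) (h b hb a ha hba d m hm y p.1 p.2 hp)
    · exact ((continuous_const.mul (Fz_cont' _ _ _ _)).abs).pow _
    · exact (continuous_const.mul (dv_cont.comp (plqT_cont _ _ _))).pow _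
    · refine pow_le_pow_left₀ (abs_nonneg _) ?_ _
      show |b ^ 2 * Fz L U α p.1 p.2 y| ≤ _
      rw [abs_mul, abs_of_nonneg (by positivity : (0:ℝ) ≤ b ^ 2)]
      exact mul_le_mul_of_nonneg_left (Fz_abs_le U α p.1 p.2 y) (by positivity)
  | cons i J ih =>
    obtain ⟨C, hC, h⟩ := ih
    refine ⟨2 ^ (2 * r) * (2 * C), by positivity, fun b hb a ha hba m _ hm α p y hp => ?_⟩
    have hc : ∀ y : St d (2 * m), Continuous fun U : Ed d (2 * m) → G =>
        |b ^ 2 * gD J (Fz L U α p.1 p.2) y| ^ (2 * r) := fun y =>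
      ((continuous_const.mul (gD_cont J (fun y => Fz_cont' _ _ _ _) y)).abs).pow _
    have h1 := h b hb a ha hba m hm α p (y + eT i) hp
    have h2 := h b hb a ha hba m hm α p y hp
    calc EX μ L (b ^ 4) (fun U : Ed d (2 * m) → G =>
        |b ^ 2 * gD (i :: J) (Fz L U α p.1 p.2) y| ^ (2 * r)) ≤
        EX μ L (b ^ 4) (fun U : Ed d (2 * m) → G => 2 ^ (2 * r) *
          (|b ^ 2 * gD J (Fz L U α p.1 p.2) (y + eT i)| ^ (2 * r) +
            |b ^ 2 * gD J (Fz L U α p.1 p.2) y| ^ (2 * r))) := by
          refine EX_mono μ ?_ (continuous_const.mul ((hc _).add (hc _))) fun U => ?_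
          · exact ((continuous_const.mul (gD_cont (i :: J) (fun y => Fz_cont' _ _ _ _) y)).abs).pow _
          · show |b ^ 2 * (gD J (Fz L U α p.1 p.2) (y + eT i) - gD J (Fz L U α p.1 p.2) y)| ^ (2 * r)
              ≤ _
            rw [mul_sub]
            exact pow_sub_le _ _ _
      _ = 2 ^ (2 * r) * (EX μ L (b ^ 4) (fun U : Ed d (2 * m) → G =>
            |b ^ 2 * gD J (Fz L U α p.1 p.2) (y + eT i)| ^ (2 * r)) +
          EX μ L (b ^ 4) (fun U : Ed d (2 * m) → G =>
            |b ^ 2 * gD J (Fz L U α p.1 p.2) y| ^ (2 * r))) := by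
          rw [EX_smul, EX_add μ (hc _) (hc _)]
      _ ≤ 2 ^ (2 * r) * (C * a + C * a) := by gcongr
      _ = _ := by ring

end moments

end

end Pool.Agent.TH940.YM
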