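import Mathlib
import Pool.Agent.TH940.YM.Leg
import Pool.Agent.W793.YM.Rebase

/-!
# Covariant differences of the field strength
-/

open MeasureTheory Matrix Pool.Agent.H906R3.YM Pool.Agent.W793.YM Pool.Agent.W793.SCHL
open scoped Matrix.Norms.Frobenius
open Pool.Agent.W793.SCH (haf Near pk gK DD mx el TK S_B1 S_B2 S_TR green plaq_moment2)

namespace Pool.Agent.TH940.YM

set_option linter.unusedSectionVars false
set_option linter.unusedVariables false

noncomputable section

variable {G : Type} [Group G] [TopologicalSpace G] [IsTopologicalGroup G] [CompactSpace G]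
  [SecondCountableTopology G] [MeasurableSpace G] [BorelSpace G] (μ : Measure G)
  [IsProbabilityMeasure μ] [μ.IsMulLeftInvariant] [μ.IsMulRightInvariant] [μ.IsInvInvariant]
  {N n : ℕ} {L : LD G N n} {d l : ℕ} [NeZero l]

section alg

lemma adm_mul (g h : G) (a b : Fin n) : L.adm (g * h) a b = ∑ c, L.adm g a c * L.adm h c b := by
  have h1 : L.rho (g * h) * L.X b * (L.rho (g * h))ᴴ =
      L.rho g * (L.rho h * L.X b * (L.rho h)ᴴ) * (L.rho g)ᴴ := by
    rw [map_mul, conjTranspose_mul]; noncomm_ring
  show ip (L.X a) (L.rho (g * h) * L.X b * (L.rho (g * h))ᴴ) = _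
  rw [h1, conj_eq, Finset.mul_sum, Finset.sum_mul, map_sum]
  refine Finset.sum_congr rfl fun c _ => ?_
  rw [mul_smul_comm, smul_mul_assoc, map_smul, smul_eq_mul, mul_comm]
  rfl

lemma adm_sub_le (g : G) (a b : Fin n) :
    |L.adm g a b - if a = b then 1 else 0| ≤ 2 * dv L g := by
  have e1 : L.adm g a b - (if a = b then 1 else 0) =
      ip (L.X a) ((L.rho g - 1) * L.X b * L.rho g⁻¹) + ip (L.X a) (L.X b * (L.rho g⁻¹ - 1)) := by
    rw [← ip_X (L := L) a b, ← map_add]
    show ip (L.X a) (L.rho g * L.X b * (L.rho g)ᴴ) - _ = _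
    rw [← map_sub, ← L.rho_inv]
    congr 1
    noncomm_ring
  rw [e1]
  refine (abs_add_le _ _).trans ?_
  have h1 : |ip (L.X a) ((L.rho g - 1) * L.X b * L.rho g⁻¹)| ≤ dv L g := by
    refine (abs_ip_le _ _).trans ?_
    rw [norm_X, one_mul, norm_rmul]
    refine (norm_mul_le _ _).trans ?_
    rw [norm_X, mul_one]
    exact le_rfl
  have h2 : |ip (L.X a) (L.X b * (L.rho g⁻¹ - 1))| ≤ dv L g := by
    refine (abs_ip_le _ _).trans ?_
    rw [norm_X, one_mul]
    refine (norm_mul_le _ _).trans ?_
    rw [norm_X, one_mul, ← dv_inv g]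
    exact le_rfl
  linarith

variable (L) in
/-- the covariant differences of the field strength, in coordinates -/
def cD (U : Ed d l → G) : List (Fin d) → Fin d × Fin d → St d l → Fin n → ℝ
  | [], p, y => fun α => fi L α (plqT U y p.1 p.2)
  | i :: J, p, y => fun α => ∑ β, L.adm (U (y, i)) α β * cD U J p (y + eT i) β - cD U J p y α

variable (L) in
/-- the covariant differences in the frame at the base point -/
def bD (U : Ed d l → G) (J : List (Fin d)) (p : Fin d × Fin d) (y : St d l) (α : Fin n) : ℝ :=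
  ∑ β, L.adm (Pc U y) α β * cD L U J p y β

lemma bD_nil (U : Ed d l → G) (p : Fin d × Fin d) (y : St d l) (α : Fin n) :
    bD L U [] p y α = Fz L U α p.1 p.2 y := by
  have h := fi_rot (L := L) (Pc U y)⁻¹ (plqT U y p.1 p.2) α
  rw [inv_inv] at h
  unfold bD Fz
  rw [h]
  refine Finset.sum_congr rfl fun b _ => ?_
  rw [adm_inv]
  rfl

lemma bD_cons (U : Ed d l → G) (i : Fin d) (J : List (Fin d)) (p : Fin d × Fin d) (y : St d l)
    (α : Fin n) : bD L U (i :: J) p y α =
      ∑ δ, L.adm (tlT U y i) α δ * bD L U J p (y + eT i) δ - bD L U J p y α := by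
  have e1 : Pc U y * U (y, i) = tlT U y i * Pc U (y + eT i) := by unfold tlT; group
  have e2 : ∀ γ, ∑ β, L.adm (Pc U y) α β * L.adm (U (y, i)) β γ =
      ∑ δ, L.adm (tlT U y i) α δ * L.adm (Pc U (y + eT i)) δ γ := by
    intro γ; rw [← adm_mul, ← adm_mul, e1]
  have e4 : ∑ β, L.adm (Pc U y) α β * ∑ γ, L.adm (U (y, i)) β γ * cD L U J p (y + eT i) γ =
      ∑ δ, L.adm (tlT U y i) α δ * bD L U J p (y + eT i) δ := by
    calc ∑ β, L.adm (Pc U y) α β * ∑ γ, L.adm (U (y, i)) β γ * cD L U J p (y + eT i) γ
        = ∑ γ, (∑ β, L.adm (Pc U y) α β * L.adm (U (y, i)) β γ) * cD L U J p (y + eT i) γ := by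
          simp only [Finset.mul_sum, Finset.sum_mul]
          rw [Finset.sum_comm]
          exact Finset.sum_congr rfl fun γ _ => Finset.sum_congr rfl fun β _ => by ring
      _ = ∑ γ, (∑ δ, L.adm (tlT U y i) α δ * L.adm (Pc U (y + eT i)) δ γ) *
            cD L U J p (y + eT i) γ := by simp only [e2]
      _ = ∑ δ, L.adm (tlT U y i) α δ * ∑ γ, L.adm (Pc U (y + eT i)) δ γ *
            cD L U J p (y + eT i) γ := by
          simp only [Finset.mul_sum, Finset.sum_mul]
          rw [Finset.sum_comm]
          exact Finset.sum_congr rfl fun γ _ => Finset.sum_congr rfl fun β _ => by ring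
      _ = _ := rfl
  calc bD L U (i :: J) p y α = ∑ β, (L.adm (Pc U y) α β *
        ∑ γ, L.adm (U (y, i)) β γ * cD L U J p (y + eT i) γ - L.adm (Pc U y) α β *
        cD L U J p y β) := Finset.sum_congr rfl fun β _ => by
          rw [← mul_sub]; rfl
    _ = _ := by rw [Finset.sum_sub_distrib, e4]; rfl

lemma wv_eT_le {y : St d l} {i : Fin d} (h : wv y i + 1 < l) (i' : Fin d) :
    wv (y + eT i) i' ≤ wv y i' + 1 := by
  rw [wv_add h]
  simp only [Pi.add_apply]
  by_cases hi : i' = i
  · subst hi; rw [es_same]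
  · rw [es_ne hi]; omega

lemma bD_le {M : ℕ} (hM : M ≤ l) (U : Ed d l → G) (J : List (Fin d)) {p : Fin d × Fin d}
    (hp : p.1 ≠ p.2) {y : St d l} (hy : ∀ i, wv y i + J.length < M) (α : Fin n) :
    |bD L U J p y α| ≤ (n + 1) ^ J.length * sB L M U := by
  induction J generalizing y α with
  | nil =>
    rw [bD_nil, List.length_nil, pow_zero, one_mul]
    exact (Fz_abs_le U α p.1 p.2 y).trans (le_sB'' U (fun i => by simpa using hy i) hp)
  | cons i J ih =>
    rw [bD_cons, List.length_cons, pow_succ]
    have hi : wv y i + 1 < l := by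
      have := hy i
      rw [List.length_cons] at this
      omega
    have h1 : ∀ δ, |bD L U J p (y + eT i) δ| ≤ (n + 1) ^ J.length * sB L M U := fun δ =>
      ih (fun i' => by
        have h2 := hy i'
        have h3 := wv_eT_le hi i'
        rw [List.length_cons] at h2
        omega) δ
    have h2 : |bD L U J p y α| ≤ (n + 1) ^ J.length * sB L M U := ih (fun i' => by
        have h2 := hy i'
        rw [List.length_cons] at h2
        omega) α
    have h3 : |∑ δ, L.adm (tlT U y i) α δ * bD L U J p (y + eT i) δ| ≤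
        n * ((n + 1) ^ J.length * sB L M U) := by
      refine (Finset.abs_sum_le_sum_abs _ _).trans ?_
      calc _ ≤ ∑ _δ : Fin n, ((n + 1) ^ J.length * sB L M U) :=
            Finset.sum_le_sum fun δ _ => by
              rw [abs_mul]
              calc _ ≤ 1 * |bD L U J p (y + eT i) δ| :=
                    mul_le_mul_of_nonneg_right (adm_abs _ _ _) (abs_nonneg _)
                _ ≤ _ := by rw [one_mul]; exact h1 δ
        _ = _ := by
            rw [Finset.sum_const, Finset.card_univ, Fintype.card_fin, nsmul_eq_mul]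
    have h4 := abs_sub (∑ δ, L.adm (tlT U y i) α δ * bD L U J p (y + eT i) δ) (bD L U J p y α)
    calc _ ≤ n * ((n + 1) ^ J.length * sB L M U) + (n + 1) ^ J.length * sB L M U := by linarith
      _ = _ := by ring

/-- the constants -/
def cE (n : ℕ) : ℕ → ℝ
  | 0 => 0
  | k + 1 => 2 * n * (n + 1) ^ k + 2 * cE n k

lemma cE_nonneg (n k : ℕ) : 0 ≤ cE n k := by
  induction k with
  | zero => exact le_rfl
  | succ k ih =>
    show 0 ≤ 2 * (n:ℝ) * (n + 1) ^ k + 2 * cE n k
    positivity

lemma bD_sub {M : ℕ} (hM : M ≤ l) (U : Ed d l → G) (J : List (Fin d)) {p : Fin d × Fin d}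
    (hp : p.1 ≠ p.2) {y : St d l} (hy : ∀ i, wv y i + J.length < M) (α : Fin n) :
    |bD L U J p y α - gD J (Fz L U α p.1 p.2) y| ≤
      cE n J.length * (d * M * sB L M U * sB L M U) := by
  induction J generalizing y α with
  | nil =>
    rw [bD_nil]
    show |Fz L U α p.1 p.2 y - Fz L U α p.1 p.2 y| ≤ 0 * _
    simp
  | cons i J ih =>
    have hs := sB_nonneg (L := L) M U
    have hi : wv y i + 1 < l := by
      have := hy i
      rw [List.length_cons] at this
      omega
    have hyi : ∀ i', wv (y + eT i) i' + J.length < M := fun i' => by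
      have h2 := hy i'
      have h3 := wv_eT_le hi i'
      rw [List.length_cons] at h2
      omega
    have hy0 : ∀ i', wv y i' + J.length < M := fun i' => by
      have h2 := hy i'
      rw [List.length_cons] at h2
      omega
    have h1 := ih hyi α
    have h2 := ih hy0 α
    have e1 : bD L U (i :: J) p y α - gD (i :: J) (Fz L U α p.1 p.2) y =
        (∑ δ, (L.adm (tlT U y i) α δ - if α = δ then 1 else 0) * bD L U J p (y + eT i) δ) +
        (bD L U J p (y + eT i) α - gD J (Fz L U α p.1 p.2) (y + eT i)) -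
        (bD L U J p y α - gD J (Fz L U α p.1 p.2) y) := by
      rw [bD_cons]
      have e2 : gD (i :: J) (Fz L U α p.1 p.2) y = gD J (Fz L U α p.1 p.2) (y + eT i) -
        gD J (Fz L U α p.1 p.2) y := rfl
      rw [e2]
      have e3 : ∑ δ, (L.adm (tlT U y i) α δ - if α = δ then 1 else 0) *
          bD L U J p (y + eT i) δ = ∑ δ, L.adm (tlT U y i) α δ * bD L U J p (y + eT i) δ -
          bD L U J p (y + eT i) α := by
        simp only [sub_mul, Finset.sum_sub_distrib, ite_mul, one_mul, zero_mul,
          Finset.sum_ite_eq, Finset.mem_univ, if_true]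
      rw [e3]; ring
    have h3 : |∑ δ, (L.adm (tlT U y i) α δ - if α = δ then 1 else 0) *
        bD L U J p (y + eT i) δ| ≤ n * (2 * (d * M * sB L M U) * ((n + 1) ^ J.length * sB L M U)) := by
      refine (Finset.abs_sum_le_sum_abs _ _).trans ?_
      calc _ ≤ ∑ _δ : Fin n, (2 * (d * M * sB L M U) * ((n + 1) ^ J.length * sB L M U)) :=
            Finset.sum_le_sum fun δ _ => by
              rw [abs_mul]
              have h5 := dv_tlT (L := L) (M := M) U (x := y) (k := i) (fun i' => by
                have := hy0 i'; omega) hi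
              exact mul_le_mul ((adm_sub_le _ _ _).trans (by linarith)) (bD_le hM U J hp hyi δ)
                (abs_nonneg _) (by positivity)
        _ = _ := by
            rw [Finset.sum_const, Finset.card_univ, Fintype.card_fin, nsmul_eq_mul]
    rw [e1]
    have h4 := abs_sub ((∑ δ, (L.adm (tlT U y i) α δ - if α = δ then 1 else 0) *
        bD L U J p (y + eT i) δ) +
        (bD L U J p (y + eT i) α - gD J (Fz L U α p.1 p.2) (y + eT i)))
        (bD L U J p y α - gD J (Fz L U α p.1 p.2) y)
    have h5 := abs_add_le (∑ δ, (L.adm (tlT U y i) α δ - if α = δ then 1 else 0) *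
        bD L U J p (y + eT i) δ)
        (bD L U J p (y + eT i) α - gD J (Fz L U α p.1 p.2) (y + eT i))
    rw [List.length_cons]
    show _ ≤ (2 * (n:ℝ) * (n + 1) ^ J.length + 2 * cE n J.length) * _
    calc _ ≤ n * (2 * (d * M * sB L M U) * ((n + 1) ^ J.length * sB L M U)) +
          2 * (cE n J.length * (d * M * sB L M U * sB L M U)) := by linarith
      _ = _ := by ring

end alg

section cont

lemma uu_cont' (v : Pt d) (k : Fin d) : Continuous fun U : Ed d l → G => uu U v k :=
  continuous_apply _

end cont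

end

end Pool.Agent.TH940.YM
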