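import Mathlib
import Pool.Agent.TH940.YM.Cov

/-!
# Covariant differences of the field strength: moments and the characteristic functional
-/

open MeasureTheory Matrix Pool.Agent.H906R3.YM Pool.Agent.W793.YM Pool.Agent.W793.SCHL
open scoped Matrix.Norms.Frobenius
open Pool.Agent.W793.SCH (haf Near pk gK DD mx el TK S_B1 S_B2 S_TR green plaq_moment2)

namespace Pool.Agent.TH940.YM

set_option linter.unusedSectionVars false
set_option linter.unusedVariables false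

noncomputable section

variable {G : Type} [Group G] [TopologicalSpace G] [IsTopologicalGroup G] [CompactSpace G]
  [SecondCountableTopology G] [MeasurableSpace G] [BorelSpace G] (μ : Measure G)
  [IsProbabilityMeasure μ] [μ.IsMulLeftInvariant] [μ.IsMulRightInvariant] [μ.IsInvInvariant]
  {N n : ℕ} {L : LD G N n} {d l : ℕ} [NeZero l]

lemma cD_cont (J : List (Fin d)) (p : Fin d × Fin d) (y : St d l) (α : Fin n) :
    Continuous fun U : Ed d l → G => cD L U J p y α := by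
  induction J generalizing y α with
  | nil => exact (fi_cont α).comp (plqT_cont _ _ _)
  | cons i J ih =>
    exact (continuous_finsetSum _ fun β _ =>
      ((adm_cont (L := L) β α).comp (continuous_apply (y, i))).mul (ih _ _)).sub (ih _ _)

lemma bD_cont (J : List (Fin d)) (p : Fin d × Fin d) (y : St d l) (α : Fin n) :
    Continuous fun U : Ed d l → G => bD L U J p y α :=
  continuous_finsetSum _ fun β _ =>
    ((adm_cont (L := L) β α).comp (Pc_cont y)).mul (cD_cont J p y β)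

/-- moments of the total deviation -/
theorem sB_mom (r e : ℕ) : ∃ C : ℝ, 0 < C ∧ ∀ b : ℝ, 1 ≤ b → ∀ a : ℝ, 1 ≤ a → b ≤ (2 * a) ^ e →
    ∀ (d m : ℕ) [NeZero m], 2 ≤ m → ∀ M : ℕ,
      EX μ L (b ^ 4) (fun U : Ed d (2 * m) → G => (b ^ 2 * sB L M U) ^ (2 * (r + 1))) ≤
        C * ((M : ℝ) ^ d * d ^ 2) ^ (2 * (r + 1)) * a := by
  obtain ⟨C, hC, h⟩ := dv_mom μ (L := L) (r + 1) e
  refine ⟨C, hC, fun b hb a ha hba d m _ hm M => ?_⟩
  obtain ⟨I, hI⟩ : ∃ I : Finset (Pt d × Fin d × Fin d), I = box d M ×ˢ Finset.univ := ⟨_, rfl⟩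
  obtain ⟨f, hf⟩ : ∃ f : Pt d × Fin d × Fin d → (Ed d (2 * m) → G) → ℝ,
    f = fun q U => if q.2.1 < q.2.2 then b ^ 2 * dv L (plqT U (ct (2 * m) q.1) q.2.1 q.2.2)
      else 0 := ⟨_, rfl⟩
  have hsum : ∀ U : Ed d (2 * m) → G, b ^ 2 * sB L M U = ∑ q ∈ I, f q U := by
    intro U
    rw [hI, Finset.sum_product, hf]
    unfold sB
    rw [Finset.mul_sum]
    refine Finset.sum_congr rfl fun v _ => ?_
    rw [Fintype.sum_prod_type, Finset.mul_sum]
    refine Finset.sum_congr rfl fun j _ => ?_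
    rw [Finset.mul_sum]
    refine Finset.sum_congr rfl fun k _ => ?_
    simp only [mul_ite, mul_zero]
  have hf0 : ∀ q U, 0 ≤ f q U := fun q U => by
    rw [hf]
    simp only
    split_ifs
    · exact mul_nonneg (by positivity) (dv_nonneg _)
    · exact le_rfl
  have hcard : (I.card : ℝ) = (M : ℝ) ^ d * d ^ 2 := by
    rw [hI, Finset.card_product, card_box]
    simp only [Finset.card_univ, Fintype.card_prod, Fintype.card_fin]
    push_cast; ring
  have hfc : ∀ q, Continuous (f q) := fun q => by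
    rw [hf]
    by_cases hq : q.2.1 < q.2.2
    · simp only [hq, if_true]
      exact continuous_const.mul (dv_cont.comp (plqT_cont _ _ _))
    · simp only [hq, if_false]
      exact continuous_const
  have hq : ∀ q ∈ I, EX μ L (b ^ 4) (fun U => f q U ^ (2 * (r + 1))) ≤ C * a := by
    intro q _
    by_cases hlt : q.2.1 < q.2.2
    · have h1 := h b hb a ha hba d m hm (ct (2 * m) q.1) q.2.1 q.2.2 hlt.ne
      have h2 : (fun U => f q U ^ (2 * (r + 1))) = fun U : Ed d (2 * m) → G =>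
          (b ^ 2 * dv L (plqT U (ct (2 * m) q.1) q.2.1 q.2.2)) ^ (2 * (r + 1)) := by
        funext U
        rw [hf]
        simp only [hlt, if_true]
      rw [h2]
      exact h1
    · have h2 : (fun U => f q U ^ (2 * (r + 1))) = fun U : Ed d (2 * m) → G => (0 : ℝ) := by
        funext U
        rw [hf]
        simp only [hlt, if_false]
        exact zero_pow (by omega)
      rw [h2, EX_const]
      positivity
  have hpow : ∀ U : Ed d (2 * m) → G, (b ^ 2 * sB L M U) ^ (2 * (r + 1)) ≤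
      (I.card : ℝ) ^ (2 * r + 1) * ∑ q ∈ I, f q U ^ (2 * (r + 1)) := by
    intro U
    rw [hsum]
    exact pow_sum_le_card_mul_sum_pow (s := I) (f := fun q => f q U) (fun q _ => hf0 q U)
      (2 * r + 1)
  have hsc : Continuous fun U : Ed d (2 * m) → G => ∑ q ∈ I, f q U ^ (2 * (r + 1)) :=
    continuous_finsetSum _ fun q _ => (hfc q).pow _
  have h1 : EX μ L (b ^ 4) (fun U : Ed d (2 * m) → G => (b ^ 2 * sB L M U) ^ (2 * (r + 1))) ≤
      EX μ L (b ^ 4) (fun U : Ed d (2 * m) → G =>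
        (I.card : ℝ) ^ (2 * r + 1) * ∑ q ∈ I, f q U ^ (2 * (r + 1))) :=
    EX_mono μ ((continuous_const.mul (sB_cont (L := L) M)).pow _)
      (continuous_const.mul hsc) hpow
  rw [EX_smul, EX_sum μ I (F := fun q U => f q U ^ (2 * (r + 1))) fun q _ => (hfc q).pow _] at h1
  refine h1.trans ?_
  rw [← hcard]
  calc (I.card : ℝ) ^ (2 * r + 1) * ∑ q ∈ I, EX μ L (b ^ 4) (fun U => f q U ^ (2 * (r + 1))) ≤
      (I.card : ℝ) ^ (2 * r + 1) * (I.card * (C * a)) := by
        refine mul_le_mul_of_nonneg_left ?_ (by positivity)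
        rw [← nsmul_eq_mul, ← Finset.sum_const]
        exact Finset.sum_le_sum hq
    _ = _ := by ring

/-- the covariant differences are close to the differences -/
theorem diff_mom (κ₀ : ℕ) (hκ : 1 ≤ κ₀) (r : ℕ) (J : List (Fin d)) : ∃ C : ℝ, 0 < C ∧
    ∀ a : ℕ, 1 ≤ a → ∀ b : ℝ,
      (a : ℝ) ^ (4 * κ₀ * (2 * d + 3) + κ₀) ≤ b → b ≤ (2 * a) ^ (4 * κ₀ * (2 * d + 3) + κ₀) →
      ∀ (m : ℕ) [NeZero m], 2 * (3 * a) ^ (4 * κ₀) ≤ m → ∀ (α : Fin n) (p : Fin d × Fin d)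
      (y : St d (2 * m)), p.1 ≠ p.2 →
      (∀ i, wv y i + J.length < 2 * (3 * a) ^ (4 * κ₀) + 2) →
      EX μ L (b ^ 4) (fun U : Ed d (2 * m) → G =>
        |b ^ 2 * (bD L U J p y α - gD J (Fz L U α p.1 p.2) y)| ^ (2 * (r + 1))) ≤
          C / a ^ (2 * κ₀ * (r + 1)) := by
  obtain ⟨C, hC, h⟩ := sB_mom μ (L := L) (2 * r + 1) (4 * κ₀ * (2 * d + 3) + κ₀)
  obtain ⟨R, hR⟩ : ∃ R, R = r + 1 := ⟨_, rfl⟩
  obtain ⟨E, hE⟩ : ∃ E, E = cE n J.length := ⟨_, rfl⟩
  have hE0 : 0 ≤ E := by rw [hE]; exact cE_nonneg _ _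
  refine ⟨(E * d) ^ (2 * R) * C * (d ^ 2) ^ (4 * R) * (4 * 3 ^ (4 * κ₀)) ^ (2 * R + 4 * d * R) + 1,
    by positivity, fun a ha b hab hba m _ hm α p y hp hy => ?_⟩
  have ha1 : (1:ℝ) ≤ a := by exact_mod_cast ha
  have ha0 : (0:ℝ) < a := by linarith
  have hb : 1 ≤ b := le_trans (one_le_pow₀ ha1) hab
  have hb0 : 0 < b := by linarith
  obtain ⟨K, hK⟩ : ∃ K, K = (3 * a) ^ (4 * κ₀) := ⟨_, rfl⟩
  rw [← hK] at hm hy
  have hK1 : 1 ≤ K := by rw [hK]; exact Nat.one_le_pow _ _ (by omega)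
  have hm2 : 2 ≤ m := by omega
  obtain ⟨M, hM⟩ : ∃ M, M = 2 * K + 2 := ⟨_, rfl⟩
  rw [← hM] at hy
  have hMl : M ≤ 2 * m := by omega
  have hMK : M ≤ 4 * K := by omega
  have h1 := h b hb a ha1 hba d m hm2 M
  have hpt : ∀ U : Ed d (2 * m) → G,
      |b ^ 2 * (bD L U J p y α - gD J (Fz L U α p.1 p.2) y)| ^ (2 * (r + 1)) ≤
      (E * d * M / b ^ 2) ^ (2 * R) * (b ^ 2 * sB L M U) ^ (2 * (2 * r + 1 + 1)) := by
    intro U
    have h2 := bD_sub (L := L) hMl U J hp hy α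
    rw [← hE] at h2
    have h3 : |b ^ 2 * (bD L U J p y α - gD J (Fz L U α p.1 p.2) y)| ≤
        (E * d * M / b ^ 2) * (b ^ 2 * sB L M U) ^ 2 := by
      rw [abs_mul, abs_of_pos (by positivity : (0:ℝ) < b ^ 2)]
      calc b ^ 2 * |bD L U J p y α - gD J (Fz L U α p.1 p.2) y| ≤
          b ^ 2 * (E * (d * M * sB L M U * sB L M U)) :=
            mul_le_mul_of_nonneg_left h2 (by positivity)
        _ = _ := by field_simp
    calc _ ≤ ((E * d * M / b ^ 2) * (b ^ 2 * sB L M U) ^ 2) ^ (2 * (r + 1)) :=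
          pow_le_pow_left₀ (abs_nonneg _) h3 _
      _ = _ := by
          rw [mul_pow, ← pow_mul, hR]
          congr 2
  have hsc : Continuous (sB L M : (Ed d (2 * m) → G) → ℝ) := sB_cont M
  have hc1 : Continuous fun U : Ed d (2 * m) → G =>
      |b ^ 2 * (bD L U J p y α - gD J (Fz L U α p.1 p.2) y)| ^ (2 * (r + 1)) :=
    ((continuous_const.mul ((bD_cont J p y α).sub
      (gD_cont J (fun y => Fz_cont' _ _ _ _) y))).abs).pow _
  have hc2 : Continuous fun U : Ed d (2 * m) → G => (E * d * M / b ^ 2) ^ (2 * R) *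
      (b ^ 2 * sB L M U) ^ (2 * (2 * r + 1 + 1)) :=
    continuous_const.mul ((continuous_const.mul hsc).pow _)
  have h4 := EX_mono μ (L := L) (β := b ^ 4) hc1 hc2 hpt
  rw [EX_smul] at h4
  refine h4.trans ((mul_le_mul_of_nonneg_left h1 (by positivity)).trans ?_)
  rw [le_div_iff₀ (by positivity)]
  have hkey : (M:ℝ) ^ (2 * R + 4 * d * R) * a * a ^ (2 * κ₀ * R) ≤
      (4 * 3 ^ (4 * κ₀)) ^ (2 * R + 4 * d * R) * b ^ (4 * R) := by
    have e1 : (M:ℝ) ≤ 4 * 3 ^ (4 * κ₀) * a ^ (4 * κ₀) := by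
      have e2 : (M:ℝ) ≤ 4 * K := by exact_mod_cast hMK
      refine e2.trans (le_of_eq ?_)
      rw [hK]; push_cast; rw [mul_pow]; ring
    have e3 : (M:ℝ) ^ (2 * R + 4 * d * R) ≤ (4 * 3 ^ (4 * κ₀)) ^ (2 * R + 4 * d * R) *
        a ^ (4 * κ₀ * (2 * R + 4 * d * R)) := by
      refine (pow_le_pow_left₀ (by positivity) e1 _).trans (le_of_eq ?_)
      rw [mul_pow, ← pow_mul]
    have e4 : (a:ℝ) ^ (4 * κ₀ * (2 * R + 4 * d * R)) * a * a ^ (2 * κ₀ * R) ≤ b ^ (4 * R) := by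
      have e5 : (a:ℝ) ^ (4 * κ₀ * (2 * R + 4 * d * R)) * a * a ^ (2 * κ₀ * R) =
          a ^ (4 * κ₀ * (2 * R + 4 * d * R) + 1 + 2 * κ₀ * R) := by
        rw [pow_add, pow_add, pow_one]
      rw [e5]
      calc (a:ℝ) ^ (4 * κ₀ * (2 * R + 4 * d * R) + 1 + 2 * κ₀ * R) ≤
          a ^ ((4 * κ₀ * (2 * d + 3) + κ₀) * (4 * R)) := by
            refine pow_le_pow_right₀ ha1 ?_
            have hκR : 1 ≤ κ₀ * R := Nat.one_le_iff_ne_zero.2
              (Nat.mul_ne_zero (by omega) (by omega))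
            have e6 : (4 * κ₀ * (2 * d + 3) + κ₀) * (4 * R) =
              32 * (κ₀ * R * d) + 52 * (κ₀ * R) := by ring
            have e7 : 4 * κ₀ * (2 * R + 4 * d * R) + 1 + 2 * κ₀ * R =
              16 * (κ₀ * R * d) + 10 * (κ₀ * R) + 1 := by ring
            rw [e6, e7]
            omega
        _ = (a ^ (4 * κ₀ * (2 * d + 3) + κ₀)) ^ (4 * R) := by rw [pow_mul]
        _ ≤ b ^ (4 * R) := pow_le_pow_left₀ (by positivity) hab _
    calc (M:ℝ) ^ (2 * R + 4 * d * R) * a * a ^ (2 * κ₀ * R) ≤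
        ((4 * 3 ^ (4 * κ₀)) ^ (2 * R + 4 * d * R) * a ^ (4 * κ₀ * (2 * R + 4 * d * R))) * a *
          a ^ (2 * κ₀ * R) := by gcongr
      _ = (4 * 3 ^ (4 * κ₀)) ^ (2 * R + 4 * d * R) *
          (a ^ (4 * κ₀ * (2 * R + 4 * d * R)) * a * a ^ (2 * κ₀ * R)) := by ring
      _ ≤ _ := mul_le_mul_of_nonneg_left e4 (by positivity)
  have hRR : 2 * (2 * r + 1 + 1) = 4 * R := by rw [hR]; ring
  rw [hRR, ← hR]
  have e8 : (E * d * M / b ^ 2) ^ (2 * R) * (C * ((M:ℝ) ^ d * d ^ 2) ^ (4 * R) * a) *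
      a ^ (2 * κ₀ * R) = (E * d) ^ (2 * R) * C * (d ^ 2) ^ (4 * R) *
      ((M:ℝ) ^ (2 * R + 4 * d * R) * a * a ^ (2 * κ₀ * R)) / b ^ (4 * R) := by
    have f1 : (b ^ 2) ^ (2 * R) = b ^ (4 * R) := by rw [← pow_mul]; congr 1; ring
    have f2 : ((M:ℝ) ^ d) ^ (4 * R) = M ^ (4 * d * R) := by rw [← pow_mul]; congr 1; ring
    rw [div_pow, f1, mul_pow (E * d) (M:ℝ), mul_pow ((M:ℝ) ^ d), f2, pow_add (M:ℝ)]
    ring
  rw [e8, div_le_iff₀ (by positivity)]
  calc (E * d) ^ (2 * R) * C * (d ^ 2) ^ (4 * R) *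
      ((M:ℝ) ^ (2 * R + 4 * d * R) * a * a ^ (2 * κ₀ * R)) ≤
      (E * d) ^ (2 * R) * C * (d ^ 2) ^ (4 * R) *
        ((4 * 3 ^ (4 * κ₀)) ^ (2 * R + 4 * d * R) * b ^ (4 * R)) :=
        mul_le_mul_of_nonneg_left hkey (by positivity)
    _ ≤ _ := by
        have : 0 ≤ b ^ (4 * R) := by positivity
        nlinarith

/-- the negatives of the variables -/
lemma near_neg {ι : Type} [Fintype ι] {Ω : Type} [MeasurableSpace Ω] {P : Measure Ω}
    {X : ι → Ω → ℝ} {A : ι → ι → ℝ} {p : ℕ} {M δ : ℝ} (h : Near P X A p M δ) :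
    Near P (fun u ω => -X u ω) A p M δ where
  meas u := (h.meas u).neg
  bdd := by
    obtain ⟨B, hB⟩ := h.bdd
    exact ⟨B, fun u ω => by rw [abs_neg]; exact hB u ω⟩
  one_le := h.one_le
  nonneg := h.nonneg
  symm := h.symm
  psd := h.psd
  bound := h.bound
  mom u := by simpa only [abs_neg] using h.mom u
  cos s hs := by simpa only [mul_neg, Finset.sum_neg_distrib, Real.cos_neg] using h.cos s hs
  sin s hs := by
    simpa only [mul_neg, Finset.sum_neg_distrib, Real.sin_neg, integral_neg, abs_neg] using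
      h.sin s hs

/-- perturbation -/
theorem near_pert {β : ℝ} {ι : Type} [Fintype ι] {X X' : ι → (Ed d l → G) → ℝ}
    {A : ι → ι → ℝ} {p : ℕ} {M δ : ℝ} (h : Near (PT μ L β) X A p M δ)
    (hX : ∀ u, Continuous (X u)) (hX' : ∀ u, Continuous (X' u)) {M' η : ℝ} (hM : M ≤ M')
    (hη0 : 0 ≤ η) (hmom : ∀ u, ∫ U, |X' u U| ^ p ∂(PT μ L β) ≤ M')
    (hη : ∀ u, EX μ L β (fun U => |X' u U - X u U|) ≤ η) :
    Near (PT μ L β) X' A p M' (Fintype.card ι * η + δ) := by
  have hS : ∀ (Z : ι → (Ed d l → G) → ℝ), (∀ u, Continuous (Z u)) → ∀ s : ι → ℝ,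
      Continuous fun U => ∑ u, s u * Z u U := fun Z hZ s =>
    continuous_finsetSum _ fun u _ => continuous_const.mul (hZ u)
  have hdist : ∀ s : ι → ℝ, (∀ u, |s u| ≤ 1) →
      EX μ L β (fun U => |∑ u, s u * X' u U - ∑ u, s u * X u U|) ≤ Fintype.card ι * η := by
    intro s hs
    calc EX μ L β (fun U => |∑ u, s u * X' u U - ∑ u, s u * X u U|) ≤
        EX μ L β (fun U => ∑ u, |X' u U - X u U|) := by
          refine EX_mono μ ((hS X' hX' s).sub (hS X hX s)).abs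
            (continuous_finsetSum _ fun u _ => ((hX' u).sub (hX u)).abs) fun U => ?_
          rw [← Finset.sum_sub_distrib]
          refine (Finset.abs_sum_le_sum_abs _ _).trans (Finset.sum_le_sum fun u _ => ?_)
          rw [← mul_sub, abs_mul]
          exact mul_le_of_le_one_left (abs_nonneg _) (hs u)
      _ = ∑ u, EX μ L β (fun U => |X' u U - X u U|) :=
          EX_sum μ _ fun u _ => ((hX' u).sub (hX u)).abs
      _ ≤ ∑ _u : ι, η := Finset.sum_le_sum fun u _ => hη u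
      _ = _ := by rw [Finset.sum_const, Finset.card_univ, nsmul_eq_mul]
  refine ⟨fun u => (hX' u).measurable, ?_, h.one_le.trans hM,
    add_nonneg (by positivity) h.nonneg, h.symm, h.psd,
    fun u v => (h.bound u v).trans hM, hmom, ?_, ?_⟩
  · have h1 : ∀ u, ∃ B, ∀ U : Ed d l → G, |X' u U| ≤ B := fun u => bdd_cont (hX' u)
    choose B hB' using h1
    refine ⟨∑ u, |B u|, fun u U => (hB' u U).trans ((le_abs_self _).trans ?_)⟩
    exact Finset.single_le_sum (f := fun u => |B u|) (fun u _ => abs_nonneg _) (Finset.mem_univ u)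
  · intro s hs
    have h1 := h.cos s hs
    rw [← EX_int μ β] at h1 ⊢
    have h2 := EX_trig μ (L := L) (hS X' hX' s) (hS X hX s) Real.continuous_cos abs_cos_sub h1
    exact h2.trans (add_le_add (hdist s hs) le_rfl)
  · intro s hs
    have h1 := h.sin s hs
    rw [← EX_int μ β] at h1 ⊢
    have h2 := EX_trig μ (L := L) (hS X' hX' s) (hS X hX s) Real.continuous_sin abs_sin_sub
      (c := 0) (by simpa only [sub_zero] using h1)
    rw [sub_zero] at h2
    exact h2.trans (add_le_add (hdist s hs) le_rfl)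

end

end Pool.Agent.TH940.YM
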