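import Mathlib
import Pool.Agent.TH940.YM.Cov2

/-!
# The characteristic functional of the covariant differences of the field strength
-/

open MeasureTheory Matrix Pool.Agent.H906R3.YM Pool.Agent.W793.YM Pool.Agent.W793.SCHL
open scoped Matrix.Norms.Frobenius
open Pool.Agent.W793.SCH (haf Near pk gK DD mx el TK S_B1 S_B2 S_TR green plaq_moment2)

namespace Pool.Agent.TH940.YM

set_option linter.unusedSectionVars false
set_option linter.unusedVariables false

noncomputable section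

variable {G : Type} [Group G] [TopologicalSpace G] [IsTopologicalGroup G] [CompactSpace G]
  [SecondCountableTopology G] [MeasurableSpace G] [BorelSpace G] (μ : Measure G)
  [IsProbabilityMeasure μ] [μ.IsMulLeftInvariant] [μ.IsMulRightInvariant] [μ.IsInvInvariant]
  {N n : ℕ} {L : LD G N n} {d l : ℕ} [NeZero l]

variable (L) in
/-- a covariant leg -/
def PG {ι : Type} (b : ℝ) (J : ι → List (Fin d)) (p : ι → Fin d × Fin d) (y : ι → St d l)
    (c : ι → Fin n) (u : ι) (U : Ed d l → G) : ℝ := -(b ^ 2 * bD L U (J u) (p u) (y u) (c u))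

/-- the covariances of the legs -/
def AC {ι : Type} (g : (Fin d → ℤ) → ℝ) (J : ι → List (Fin d)) (p : ι → Fin d × Fin d)
    (Y : ι → Fin d → ℤ) (c : ι → Fin n) (u v : ι) : ℝ :=
  if c u = c v then mcD g (J u) (p u) (J v) (p v) (Y u - Y v) else 0

lemma PG_cont {ι : Type} (b : ℝ) (J : ι → List (Fin d)) (p : ι → Fin d × Fin d)
    (y : ι → St d l) (c : ι → Fin n) (u : ι) :
    Continuous (PG L b J p y c u : (Ed d l → G) → ℝ) :=
  (continuous_const.mul (bD_cont _ _ _ _)).neg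

lemma le_sumf {ι : Type} [Fintype ι] {f : ι → ℝ} (hf : ∀ u, 0 ≤ f u) (u : ι) : f u ≤ ∑ v, f v :=
  Finset.single_le_sum (f := f) (fun v _ => hf v) (Finset.mem_univ u)

lemma two_le (D : ℝ) {t : ℝ} (ht : 0 < t) : |D| ≤ t * |D| ^ 2 + 1 / t := by
  have h1 : 0 ≤ |D| := abs_nonneg D
  rcases le_total (t * |D|) 1 with h | h
  · have : |D| ≤ 1 / t := by rw [le_div_iff₀ ht]; linarith
    nlinarith [mul_nonneg ht.le (sq_nonneg |D|)]
  · have h2 : |D| ≤ t * |D| ^ 2 := by nlinarith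
    have : 0 ≤ 1 / t := by positivity
    linarith

theorem near_cov (hd : 3 ≤ d) (hB : S_B2) (hT : S_TR) (κ₀ : ℕ) (hκ : 1 ≤ κ₀) {ι : Type}
    [Fintype ι] (J : ι → List (Fin d)) (r : ℕ) :
    ∃ (CM Cδ CT : ℝ), 1 ≤ CM ∧ 0 ≤ Cδ ∧ 0 < CT ∧ (∀ z, |green d z| ≤ CT) ∧
      (∀ (K : ℕ) z, 1 ≤ K → |gK d K z - green d z| ≤ CT / Real.sqrt K) ∧
      ∀ a : ℕ, 1 ≤ a → (∀ u, (J u).length ≤ a) → ∀ b : ℝ,
      (a : ℝ) ^ (4 * κ₀ * (2 * d + 3) + κ₀) ≤ b → b ≤ (2 * a) ^ (4 * κ₀ * (2 * d + 3) + κ₀) →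
      ∀ (m : ℕ) [NeZero m], 2 * (3 * a) ^ (4 * κ₀) ≤ m →
      ∀ p : ι → Fin d × Fin d, (∀ u, (p u).1 ≠ (p u).2) →
      ∀ Y : ι → Fin d → ℤ, (∀ u i, (((3 * a) ^ (4 * κ₀) : ℕ) : ℤ) + 2 ≤ Y u i ∧
        Y u i + a < 2 * (((3 * a) ^ (4 * κ₀) : ℕ) : ℤ) + 2) → (∀ u v i, |Y u i - Y v i| ≤ 2 * a) →
      ∀ c : ι → Fin n,
        Near (PT μ L (b ^ 4) : Measure (Ed d (2 * m) → G)) (PG L b J p (fun u => zt _ (Y u)) c)
          (AC (gK d ((3 * a) ^ (4 * κ₀))) J p Y c) (2 * (r + 1)) (CM * a) (Cδ / a ^ κ₀) := by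
  obtain ⟨Λ, hΛ⟩ : ∃ Λ : ℝ, Λ = ∑ u, 2 ^ ((J u).length + 1) := ⟨_, rfl⟩
  have hΛ0 : 0 ≤ Λ := by rw [hΛ]; positivity
  obtain ⟨Cg, hCg, hgen⟩ := near_gen μ (L := L) hd κ₀ hκ Λ hΛ0
  obtain ⟨CT, hCT, _, hg, hgK⟩ := hT d hd
  have hmom := fun u => gD_mom μ (L := L) (d := d) (r + 1) (4 * κ₀ * (2 * d + 3) + κ₀) (J u)
  choose Cm hCm hmom using hmom
  have hdif := fun u => diff_mom μ (L := L) κ₀ hκ r (J u)
  choose Cd hCd hdif using hdif
  have hdif0 := fun u => diff_mom μ (L := L) κ₀ hκ 0 (J u)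
  choose Ce hCe hdif0 using hdif0
  obtain ⟨CA, hCA⟩ : ∃ CA : ℝ, CA = ∑ u, ∑ v, 2 ^ (J u).length * (2 ^ (J v).length *
    (16 * (2 * CT))) := ⟨_, rfl⟩
  have hCA0 : 0 ≤ CA := by rw [hCA]; positivity
  obtain ⟨C1, hC1⟩ : ∃ C1, C1 = 1 + ∑ u, Cm u + CA := ⟨_, rfl⟩
  have hsm0 : 0 ≤ ∑ u, Cm u := Finset.sum_nonneg fun u _ => (hCm u).le
  have hsd0 : 0 ≤ ∑ u, Cd u := Finset.sum_nonneg fun u _ => (hCd u).le
  have hse0 : 0 ≤ ∑ u, Ce u := Finset.sum_nonneg fun u _ => (hCe u).le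
  have hC11 : 1 ≤ C1 := by rw [hC1]; linarith
  obtain ⟨CM, hCM⟩ : ∃ CM, CM = 2 ^ (2 * (r + 1)) * (C1 + ∑ u, Cd u) := ⟨_, rfl⟩
  have h2r : (1:ℝ) ≤ 2 ^ (2 * (r + 1)) := one_le_pow₀ (by norm_num)
  have hCM1 : C1 ≤ CM := by
    rw [hCM]
    nlinarith
  refine ⟨CM, Fintype.card ι * (∑ u, Ce u + 1) + Cg, CT, hC11.trans hCM1, by positivity, hCT, hg,
    hgK, fun a ha hJa b hab hba m _ hm p hp Y hY hYY c => ?_⟩
  have hd1 : 1 ≤ d := by omega
  have ha1 : (1:ℝ) ≤ a := by exact_mod_cast ha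
  have ha0 : (0:ℝ) < a := by linarith
  have hb : 1 ≤ b := le_trans (one_le_pow₀ ha1) hab
  obtain ⟨K, hK⟩ : ∃ K, K = (3 * a) ^ (4 * κ₀) := ⟨_, rfl⟩
  have hm' := hm
  rw [← hK] at hm' hY ⊢
  have hK81 : 81 * a ≤ K := by
    rw [hK]
    calc 81 * a ≤ (3 * a) ^ 4 := by
          have : (3 * a) ^ 4 = 81 * a * (a ^ 3) := by ring
          rw [this]
          exact Nat.le_mul_of_pos_right _ (by positivity)
      _ ≤ (3 * a) ^ (4 * κ₀) := Nat.pow_le_pow_right (by omega) (by omega)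
  have hK1 : 1 ≤ K := by omega
  have hK1' : (1:ℝ) ≤ K := by exact_mod_cast hK1
  have hm2 : 2 ≤ m := by omega
  obtain ⟨φ, hφ⟩ : ∃ φ : ι → Fm d (2 * m), φ = fun u => elD (J u) (p u) (zt (2 * m) (Y u)) :=
    ⟨_, rfl⟩
  have hcov : cvG K φ c = AC (gK d K) J p Y c := by
    funext u v
    unfold cvG AC
    by_cases hc : c u = c v
    · rw [if_pos hc, if_pos hc, hφ]
      refine cov_eq hB hd1 (J u) (p u) (J v) (p v) fun i => ?_
      have h1 := hYY u v i
      have h2 := hJa u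
      have h3 := hJa v
      push_cast
      omega
    · rw [if_neg hc, if_neg hc]
  have hXG : ∀ u, (XG L b φ c u : (Ed d (2 * m) → G) → ℝ) =
      fun U => b ^ 2 * gD (J u) (Fz L U (c u) (p u).1 (p u).2) (zt (2 * m) (Y u)) := by
    intro u
    funext U
    unfold XG
    rw [hφ, ipF_elD (Fz_asy U _)]
  have hgKb : ∀ z, |gK d K z| ≤ 2 * CT := by
    intro z
    have h2 := hgK K z hK1
    have h3 : CT / Real.sqrt K ≤ CT := div_le_self hCT.le (Real.one_le_sqrt.2 hK1')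
    have h4 : |gK d K z| ≤ |gK d K z - green d z| + |green d z| := by
      have := abs_add_le (gK d K z - green d z) (green d z)
      rwa [sub_add_cancel] at this
    linarith [hg z]
  have hmomX : ∀ u, EX μ L (b ^ 4) (fun U : Ed d (2 * m) → G => |XG L b φ c u U| ^ (2 * (r + 1))) ≤
      C1 * a := by
    intro u
    rw [hXG u]
    refine (hmom u b hb a ha1 hba m hm2 (c u) (p u) _ (hp u)).trans ?_
    refine mul_le_mul_of_nonneg_right ?_ ha0.le
    have := le_sumf (fun u => (hCm u).le) u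
    rw [hC1]; linarith
  have hnear : Near (PT μ L (b ^ 4) : Measure (Ed d (2 * m) → G)) (XG L b φ c) (cvG K φ c)
      (2 * (r + 1)) (C1 * a) (Cg / a ^ κ₀) := by
    rw [hK]
    refine hgen a ha b hab m hm ι φ c ?_ ?_ ?_ (2 * (r + 1)) (C1 * a) ?_ ?_ ?_
    · intro u
      rw [hφ]
      exact elD_asy _ _ _
    · intro u p' q'
      rw [hφ, ← hK]
      refine elD_SW (J u) (p u) (by omega) (fun i => ?_) (fun i => ?_) p' q'
      · have := (hY u i).1
        push_cast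
        omega
      · have := (hY u i).2
        have h2 := hJa u
        push_cast
        omega
    · rw [hφ, hΛ]
      exact Finset.sum_le_sum fun u _ => n1_elD _ _ _
    · nlinarith
    · intro u v
      rw [← hK, hcov]
      unfold AC
      have h0 : (2:ℝ) ^ (J u).length * (2 ^ (J v).length * (16 * (2 * CT))) ≤ CA := by
        rw [hCA]
        have h1 := le_sumf (f := fun v => (2:ℝ) ^ (J u).length * (2 ^ (J v).length *
          (16 * (2 * CT)))) (fun v => by positivity) v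
        have h2 := le_sumf (f := fun u => ∑ v, (2:ℝ) ^ (J u).length * (2 ^ (J v).length *
          (16 * (2 * CT)))) (fun v => by positivity) u
        exact h1.trans h2
      have h3 : CA ≤ C1 := by rw [hC1]; linarith
      have h4 : C1 ≤ C1 * a := le_mul_of_one_le_right (by linarith) ha1
      split_ifs
      · refine (mcD_le (by positivity) hgKb _ _ _ _ _).trans ?_
        linarith
      · rw [abs_zero]; linarith
    · intro u
      rw [← EX_int]
      exact hmomX u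
  have hXc : ∀ u, Continuous (XG L b φ c u : (Ed d (2 * m) → G) → ℝ) := XG_cont b φ c
  have hP'c : ∀ u, Continuous fun U : Ed d (2 * m) → G =>
      b ^ 2 * bD L U (J u) (p u) (zt (2 * m) (Y u)) (c u) := fun u =>
    continuous_const.mul (bD_cont _ _ _ _)
  have hyb : ∀ u i, wv (zt (2 * m) (Y u)) i + (J u).length < 2 * (3 * a) ^ (4 * κ₀) + 2 := by
    intro u i
    have h2 := wv_zt (l := 2 * m) (z := Y u) (fun i => by
      have := hY u i
      push_cast
      constructor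
      · omega
      · omega) i
    have h3 := hY u i
    have h4 := hJa u
    rw [← hK]
    omega
  have hdiff : ∀ u, EX μ L (b ^ 4) (fun U : Ed d (2 * m) → G =>
      |b ^ 2 * bD L U (J u) (p u) (zt (2 * m) (Y u)) (c u) - XG L b φ c u U| ^ (2 * (r + 1))) ≤
      Cd u := by
    intro u
    have h1 := hdif u a ha b hab hba m hm (c u) (p u) (zt (2 * m) (Y u)) (hp u) (hyb u)
    have h2 : (fun U : Ed d (2 * m) → G =>
      |b ^ 2 * bD L U (J u) (p u) (zt (2 * m) (Y u)) (c u) - XG L b φ c u U| ^ (2 * (r + 1))) =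
      fun U => |b ^ 2 * (bD L U (J u) (p u) (zt (2 * m) (Y u)) (c u) -
        gD (J u) (Fz L U (c u) (p u).1 (p u).2) (zt (2 * m) (Y u)))| ^ (2 * (r + 1)) := by
      funext U
      rw [hXG u, mul_sub]
    rw [h2]
    refine h1.trans (div_le_self (hCd u).le ?_)
    exact one_le_pow₀ ha1
  have hdiff0 : ∀ u, EX μ L (b ^ 4) (fun U : Ed d (2 * m) → G =>
      |b ^ 2 * bD L U (J u) (p u) (zt (2 * m) (Y u)) (c u) - XG L b φ c u U|) ≤
      (∑ u, Ce u + 1) / a ^ κ₀ := by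
    intro u
    have h1 := hdif0 u a ha b hab hba m hm (c u) (p u) (zt (2 * m) (Y u)) (hp u) (hyb u)
    have h2 : (fun U : Ed d (2 * m) → G => |b ^ 2 * (bD L U (J u) (p u) (zt (2 * m) (Y u)) (c u) -
        gD (J u) (Fz L U (c u) (p u).1 (p u).2) (zt (2 * m) (Y u)))| ^ (2 * (0 + 1))) =
      (fun U : Ed d (2 * m) → G =>
      |b ^ 2 * bD L U (J u) (p u) (zt (2 * m) (Y u)) (c u) - XG L b φ c u U| ^ 2) := by
      funext U
      rw [hXG u, mul_sub]
    rw [h2] at h1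
    have c3 : Continuous fun U : Ed d (2 * m) → G => (a:ℝ) ^ κ₀ *
        |b ^ 2 * bD L U (J u) (p u) (zt (2 * m) (Y u)) (c u) - XG L b φ c u U| ^ 2 :=
      continuous_const.mul ((((hP'c u).sub (hXc u)).abs).pow 2)
    have c4 : Continuous fun _ : Ed d (2 * m) → G => 1 / (a:ℝ) ^ κ₀ := continuous_const
    have h3 := EX_mono μ (L := L) (β := b ^ 4)
      (F := fun U : Ed d (2 * m) → G =>
        |b ^ 2 * bD L U (J u) (p u) (zt (2 * m) (Y u)) (c u) - XG L b φ c u U|)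
      (H := fun U : Ed d (2 * m) → G => (a:ℝ) ^ κ₀ *
        |b ^ 2 * bD L U (J u) (p u) (zt (2 * m) (Y u)) (c u) - XG L b φ c u U| ^ 2 +
          (fun _ : Ed d (2 * m) → G => 1 / (a:ℝ) ^ κ₀) U)
      (((hP'c u).sub (hXc u)).abs) (c3.add c4)
      (fun U => two_le _ (by positivity))
    rw [EX_add μ c3 c4, EX_smul, EX_const] at h3
    refine h3.trans ?_
    have h4 : (a:ℝ) ^ κ₀ * EX μ L (b ^ 4) (fun U : Ed d (2 * m) → G =>
        |b ^ 2 * bD L U (J u) (p u) (zt (2 * m) (Y u)) (c u) - XG L b φ c u U| ^ 2) ≤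
        Ce u / a ^ κ₀ := by
      refine (mul_le_mul_of_nonneg_left h1 (by positivity)).trans (le_of_eq ?_)
      have e1 : (a:ℝ) ^ (2 * κ₀ * (0 + 1)) = a ^ κ₀ * a ^ κ₀ := by
        rw [← pow_add]; congr 1; ring
      rw [e1]
      field_simp
    calc _ ≤ Ce u / a ^ κ₀ + 1 / a ^ κ₀ := add_le_add h4 le_rfl
      _ = (Ce u + 1) / a ^ κ₀ := by rw [add_div]
      _ ≤ _ := by
          have := le_sumf (fun u => (hCe u).le) u
          gcongr
  have hpert := near_pert μ (X' := fun u (U : Ed d (2 * m) → G) =>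
      b ^ 2 * bD L U (J u) (p u) (zt (2 * m) (Y u)) (c u)) hnear hXc hP'c
    (M' := CM * a) (η := (∑ u, Ce u + 1) / a ^ κ₀)
    (mul_le_mul_of_nonneg_right hCM1 ha0.le) (by positivity) (fun u => by
      rw [← EX_int]
      have e1 : ∀ U : Ed d (2 * m) → G,
          |b ^ 2 * bD L U (J u) (p u) (zt (2 * m) (Y u)) (c u)| ^ (2 * (r + 1)) ≤
          2 ^ (2 * (r + 1)) * (|XG L b φ c u U| ^ (2 * (r + 1)) +
          |b ^ 2 * bD L U (J u) (p u) (zt (2 * m) (Y u)) (c u) - XG L b φ c u U| ^ (2 * (r + 1))) := by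
        intro U
        have h1 := pow_sub_le (b ^ 2 * bD L U (J u) (p u) (zt (2 * m) (Y u)) (c u) -
          XG L b φ c u U) (-(XG L b φ c u U)) (2 * (r + 1))
        rw [sub_neg_eq_add, sub_add_cancel, abs_neg, add_comm (|_ - _| ^ _)] at h1
        exact h1
      have c1 : Continuous fun U : Ed d (2 * m) → G => |XG L b φ c u U| ^ (2 * (r + 1)) :=
        ((hXc u).abs).pow _
      have c2 : Continuous fun U : Ed d (2 * m) → G =>
          |b ^ 2 * bD L U (J u) (p u) (zt (2 * m) (Y u)) (c u) - XG L b φ c u U| ^ (2 * (r + 1)) :=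
        (((hP'c u).sub (hXc u)).abs).pow _
      have h1 := EX_mono μ (L := L) (β := b ^ 4) (((hP'c u).abs).pow (2 * (r + 1)))
        (continuous_const.mul (c1.add c2)) e1
      refine h1.trans ?_
      have h2 : EX μ L (b ^ 4) (fun U : Ed d (2 * m) → G => 2 ^ (2 * (r + 1)) *
          (|XG L b φ c u U| ^ (2 * (r + 1)) +
          |b ^ 2 * bD L U (J u) (p u) (zt (2 * m) (Y u)) (c u) - XG L b φ c u U| ^ (2 * (r + 1)))) =
          2 ^ (2 * (r + 1)) * (EX μ L (b ^ 4) (fun U : Ed d (2 * m) → G =>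
            |XG L b φ c u U| ^ (2 * (r + 1))) + EX μ L (b ^ 4) (fun U : Ed d (2 * m) → G =>
          |b ^ 2 * bD L U (J u) (p u) (zt (2 * m) (Y u)) (c u) - XG L b φ c u U| ^
            (2 * (r + 1)))) := by
        rw [EX_smul, EX_add μ c1 c2]
      refine (le_of_eq h2).trans ?_
      rw [hCM, mul_assoc]
      refine mul_le_mul_of_nonneg_left ?_ (by positivity)
      rw [add_mul]
      refine add_le_add (hmomX u) ((hdiff u).trans ((le_sumf (fun u => (hCd u).le) u).trans ?_))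
      exact le_mul_of_one_le_right hsd0 ha1)
    hdiff0
  have hfin := near_neg hpert
  rw [hcov] at hfin
  have e9 : (Fintype.card ι : ℝ) * ((∑ u, Ce u + 1) / a ^ κ₀) + Cg / a ^ κ₀ =
      (Fintype.card ι * (∑ u, Ce u + 1) + Cg) / a ^ κ₀ := by ring
  rw [e9] at hfin
  exact hfin

end

end Pool.Agent.TH940.YM
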