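import Mathlib
import Pool.Agent.TH940.YM.Cov3
import Pool.Agent.W793.SCH.Stm4

/-!
# The moments of the covariant differences of the field strength
-/

open MeasureTheory Matrix Pool.Agent.H906R3.YM Pool.Agent.W793.YM Pool.Agent.W793.SCHL
open scoped Matrix.Norms.Frobenius
open Pool.Agent.W793.SCH (haf Near pk gK DD mx el TK S_B1 S_B2 S_TR S_W1 S_HAF green plaq_moment2)

namespace Pool.Agent.TH940.YM

set_option linter.unusedSectionVars false
set_option linter.unusedVariables false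

noncomputable section

variable {G : Type} [Group G] [TopologicalSpace G] [IsTopologicalGroup G] [CompactSpace G]
  [SecondCountableTopology G] [MeasurableSpace G] [BorelSpace G] (μ : Measure G)
  [IsProbabilityMeasure μ] [μ.IsMulLeftInvariant] [μ.IsMulRightInvariant] [μ.IsInvInvariant]
  {N n : ℕ} {L : LD G N n} {d l : ℕ} [NeZero l]

/-- the constant of the covariances -/
def cJ {ι : Type} [Fintype ι] (J : ι → List (Fin d)) : ℝ :=
  ∑ u, ∑ v, 2 ^ (J u).length * (2 ^ (J v).length * 16)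

lemma cJ_nonneg {ι : Type} [Fintype ι] (J : ι → List (Fin d)) : 0 ≤ cJ J := by
  unfold cJ; positivity

lemma AC_le {ι : Type} [Fintype ι] {g : (Fin d → ℤ) → ℝ} {C : ℝ} (hC : 0 ≤ C)
    (hg : ∀ z, |g z| ≤ C) (J : ι → List (Fin d)) (p : ι → Fin d × Fin d) (Y : ι → Fin d → ℤ)
    (c : ι → Fin n) (u v : ι) : |AC g J p Y c u v| ≤ cJ J * C := by
  have h0 : (2:ℝ) ^ (J u).length * (2 ^ (J v).length * 16) ≤ cJ J := by
    unfold cJ
    have h1 := le_sumf (f := fun v => (2:ℝ) ^ (J u).length * (2 ^ (J v).length * 16))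
      (fun v => by positivity) v
    have h2 := le_sumf (f := fun u => ∑ v, (2:ℝ) ^ (J u).length * (2 ^ (J v).length * 16))
      (fun v => by positivity) u
    exact h1.trans h2
  unfold AC
  split_ifs
  · refine (mcD_le hC hg _ _ _ _ _).trans ?_
    calc _ = 2 ^ (J u).length * (2 ^ (J v).length * 16) * C := by ring
      _ ≤ _ := mul_le_mul_of_nonneg_right h0 hC
  · rw [abs_zero]
    exact mul_nonneg (cJ_nonneg J) hC

lemma AC_sub {ι : Type} (g g' : (Fin d → ℤ) → ℝ) (J : ι → List (Fin d)) (p : ι → Fin d × Fin d)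
    (Y : ι → Fin d → ℤ) (c : ι → Fin n) (u v : ι) :
    AC g J p Y c u v - AC g' J p Y c u v = AC (fun z => g z - g' z) J p Y c u v := by
  unfold AC
  split_ifs
  · exact mcD_sub _ _ _ _ _ _ _
  · exact sub_self _

theorem mom_cov (hd : 3 ≤ d) (hB : S_B2) (hT : S_TR) (hW : S_W1) (hH : S_HAF) {ι : Type}
    [Fintype ι] [DecidableEq ι] (J : ι → List (Fin d)) (p₀ : ℕ) :
    ∃ (κ₀ : ℕ) (C CT : ℝ), 1 ≤ κ₀ ∧ 0 < C ∧ 0 < CT ∧ (∀ z, |green d z| ≤ CT) ∧
      ∀ a : ℕ, 1 ≤ a → (∀ u, (J u).length ≤ a) → ∀ b : ℝ,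
      (a : ℝ) ^ (4 * κ₀ * (2 * d + 3) + κ₀) ≤ b → b ≤ (2 * a) ^ (4 * κ₀ * (2 * d + 3) + κ₀) →
      ∀ (m : ℕ) [NeZero m], 2 * (3 * a) ^ (4 * κ₀) ≤ m →
      ∀ p : ι → Fin d × Fin d, (∀ u, (p u).1 ≠ (p u).2) →
      ∀ Y : ι → Fin d → ℤ, (∀ u i, (((3 * a) ^ (4 * κ₀) : ℕ) : ℤ) + 2 ≤ Y u i ∧
        Y u i + a < 2 * (((3 * a) ^ (4 * κ₀) : ℕ) : ℤ) + 2) → (∀ u v i, |Y u i - Y v i| ≤ 2 * a) →
      ∀ (c : ι → Fin n) (l : List ι), l.Nodup →
        |EX μ L (b ^ 4) (fun U : Ed d (2 * m) → G =>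
          (l.map fun u => PG L b J p (fun u => zt _ (Y u)) c u U).prod) -
          haf (AC (green d) J p Y c) l| ≤ C / a ^ p₀ := by
  obtain ⟨s, hs⟩ : ∃ s, s = Fintype.card ι := ⟨_, rfl⟩
  obtain ⟨h₀, hh₀⟩ : ∃ h₀, h₀ = 2 * s + 2 + p₀ := ⟨_, rfl⟩
  obtain ⟨κ₀, hκ₀⟩ : ∃ κ₀, κ₀ = h₀ * (2 * s) + p₀ + 1 := ⟨_, rfl⟩
  obtain ⟨CM, Cδ, CT, hCM, hCδ, hCT, hg, hgK, hnear⟩ :=
    near_cov μ (L := L) hd hB hT κ₀ (by omega) J s
  obtain ⟨CW, hCW, hWC⟩ := hW (2 * s)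
  obtain ⟨_, hlip, _⟩ := hH
  have hJ0 := cJ_nonneg J
  obtain ⟨B₁, hB₁⟩ : ∃ B₁, B₁ = 1 + cJ J * (2 * CT) := ⟨_, rfl⟩
  have hB1 : 1 ≤ B₁ := by
    rw [hB₁]
    have : 0 ≤ cJ J * (2 * CT) := by positivity
    linarith
  refine ⟨κ₀, CW * (Cδ + CM ^ (2 * s + 2)) + s * s.factorial * B₁ ^ s * (cJ J * CT), CT, by omega,
    by positivity, hCT, hg, fun a ha hJa b hab hba m _ hm p hp Y hY hYY c l hl => ?_⟩
  have ha1 : (1:ℝ) ≤ a := by exact_mod_cast ha
  have ha0 : (0:ℝ) < a := by linarith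
  obtain ⟨K, hK⟩ : ∃ K, K = (3 * a) ^ (4 * κ₀) := ⟨_, rfl⟩
  have hK1 : 1 ≤ K := by rw [hK]; exact Nat.one_le_pow _ _ (by omega)
  have hK1' : (1:ℝ) ≤ K := by exact_mod_cast hK1
  have hKr : (K : ℝ) = (3 * a) ^ (4 * κ₀) := by rw [hK]; push_cast; rfl
  have hsq : Real.sqrt K = (3 * a) ^ (2 * κ₀) := by
    rw [hKr, show (3 * (a:ℝ)) ^ (4 * κ₀) = ((3 * a) ^ (2 * κ₀)) ^ 2 by rw [← pow_mul]; congr 1; ring]
    exact Real.sqrt_sq (by positivity)
  have hap : (a:ℝ) ^ p₀ ≤ Real.sqrt K := by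
    rw [hsq]
    calc (a:ℝ) ^ p₀ ≤ a ^ (2 * κ₀) := pow_le_pow_right₀ ha1 (by omega)
      _ ≤ _ := pow_le_pow_left₀ ha0.le (by linarith) _
  have hls : l.length ≤ s := by
    rw [hs]
    exact hl.length_le_card
  haveI := PT_prob μ (L := L) (d := d) (l := 2 * m) (b ^ 4)
  have h1 := hWC ι _ (PT μ L (b ^ 4) : Measure (Ed d (2 * m) → G))
    (PG L b J p (fun u => zt (2 * m) (Y u)) c) (AC (gK d ((3 * a) ^ (4 * κ₀))) J p Y c) (CM * a)
    (Cδ / a ^ κ₀) (1 / a ^ h₀) (hnear a ha hJa b hab hba m hm p hp Y hY hYY c) (by positivity)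
    (by rw [div_le_one (by positivity)]; exact one_le_pow₀ ha1) l hl (by omega)
  have h2 : CW * (Cδ / a ^ κ₀ / (1 / a ^ h₀) ^ (2 * s) + (1 / a ^ h₀) ^ 2 * (CM * a) ^ (2 * s + 2)) ≤
      CW * (Cδ + CM ^ (2 * s + 2)) / a ^ p₀ := by
    have e1 : Cδ / (a:ℝ) ^ κ₀ / (1 / a ^ h₀) ^ (2 * s) ≤ Cδ / a ^ p₀ := by
      have e2 : (1 / (a:ℝ) ^ h₀) ^ (2 * s) = 1 / a ^ (h₀ * (2 * s)) := by
        rw [_root_.one_div_pow, ← pow_mul]
      rw [e2, div_div, mul_one_div]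
      refine div_le_div_of_nonneg_left hCδ (by positivity) ?_
      rw [le_div_iff₀ (by positivity), ← pow_add]
      exact pow_le_pow_right₀ ha1 (by omega)
    have e3 : (1 / (a:ℝ) ^ h₀) ^ 2 * (CM * a) ^ (2 * s + 2) ≤ CM ^ (2 * s + 2) / a ^ p₀ := by
      have e4 : (1 / (a:ℝ) ^ h₀) ^ 2 * (CM * a) ^ (2 * s + 2) =
          CM ^ (2 * s + 2) * (a ^ (2 * s + 2) / a ^ (h₀ * 2)) := by
        rw [_root_.one_div_pow, ← pow_mul, mul_pow]; ring
      rw [e4, div_eq_mul_one_div (CM ^ (2 * s + 2))]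
      refine mul_le_mul_of_nonneg_left ?_ (by positivity)
      rw [div_le_div_iff₀ (by positivity) (by positivity), one_mul, ← pow_add]
      exact pow_le_pow_right₀ ha1 (by omega)
    calc _ ≤ CW * (Cδ / a ^ p₀ + CM ^ (2 * s + 2) / a ^ p₀) :=
          mul_le_mul_of_nonneg_left (add_le_add e1 e3) hCW.le
      _ = _ := by ring
  have h3 : |haf (AC (gK d K) J p Y c) l - haf (AC (green d) J p Y c) l| ≤
      s * s.factorial * B₁ ^ s * (cJ J * CT) / a ^ p₀ := by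
    have hη : CT / Real.sqrt K ≤ CT / a ^ p₀ := div_le_div_of_nonneg_left hCT.le (by positivity) hap
    have e1 : ∀ z, |gK d K z| ≤ 2 * CT := by
      intro z
      have h2 := hgK K z hK1
      have h3 : CT / Real.sqrt K ≤ CT := div_le_self hCT.le (Real.one_le_sqrt.2 hK1')
      have h4 : |gK d K z| ≤ |gK d K z - green d z| + |green d z| := by
        have := abs_add_le (gK d K z - green d z) (green d z)
        rwa [sub_add_cancel] at this
      linarith [hg z]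
    have h4 := hlip ι (AC (gK d K) J p Y c) (AC (green d) J p Y c) B₁ (cJ J * (CT / a ^ p₀)) l hB1
      (by positivity)
      (fun u v => (AC_le (by positivity) e1 J p Y c u v).trans (by rw [hB₁]; linarith))
      (fun u v => (AC_le hCT.le hg J p Y c u v).trans (by
        rw [hB₁]
        have : 0 ≤ cJ J * CT := by positivity
        linarith))
      (fun u v => by
        rw [AC_sub]
        exact AC_le (by positivity) (fun z => (hgK K z hK1).trans hη) J p Y c u v)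
    refine h4.trans ?_
    have e5 : (l.length : ℝ) * l.length.factorial * B₁ ^ l.length ≤ s * s.factorial * B₁ ^ s := by
      have f1 : (l.length : ℝ) ≤ s := by exact_mod_cast hls
      have f2 : (l.length.factorial : ℝ) ≤ s.factorial := by
        exact_mod_cast Nat.factorial_le hls
      have f3 : B₁ ^ l.length ≤ B₁ ^ s := pow_le_pow_right₀ hB1 hls
      gcongr
    calc _ ≤ (s * s.factorial * B₁ ^ s) * (cJ J * (CT / a ^ p₀)) :=
          mul_le_mul_of_nonneg_right e5 (by positivity)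
      _ = _ := by ring
  rw [← hK] at h1
  rw [EX_int]
  have h5 := abs_sub_le (∫ U, (l.map fun u => PG L b J p (fun u => zt (2 * m) (Y u)) c u U).prod
    ∂(PT μ L (b ^ 4) : Measure (Ed d (2 * m) → G))) (haf (AC (gK d K) J p Y c) l)
    (haf (AC (green d) J p Y c) l)
  refine h5.trans ?_
  calc _ ≤ CW * (Cδ + CM ^ (2 * s + 2)) / a ^ p₀ +
        s * s.factorial * B₁ ^ s * (cJ J * CT) / a ^ p₀ := add_le_add (h1.trans h2) h3
    _ = _ := by ring

end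

end Pool.Agent.TH940.YM
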