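import Mathlib
import Pool.Agent.TH940.YM.Mom
import Pool.Agent.TH940.YM.Exp

/-!
# The correlation functions of the Wick ordered local fields on the torus
-/

open MeasureTheory Matrix Filter Pool.Agent.H906R3.YM Pool.Agent.W793.YM Pool.Agent.W793.SCHL
open scoped Matrix.Norms.Frobenius Topology
open Pool.Agent.W793.SCH (haf Near pk gK DD mx el TK S_B1 S_B2 S_TR S_W1 S_HAF green plaq_moment2)

namespace Pool.Agent.TH940.YM

set_option linter.unusedSectionVars false
set_option linter.unusedVariables false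

noncomputable section

section symm

variable {d n : ℕ}

lemma mcD_symmK (hB : S_B2) (hd : 1 ≤ d) (K : ℕ) (J : List (Fin d)) (p : Fin d × Fin d)
    (J' : List (Fin d)) (p' : Fin d × Fin d) (z : Fin d → ℤ) :
    mcD (gK d K) J p J' p' z = mcD (gK d K) J' p' J p (-z) := by
  obtain ⟨l, hl⟩ : ∃ l : ℕ, l = (∑ i, (z i).natAbs) + J.length + J'.length + 2 * K + 3 := ⟨_, rfl⟩
  have hl' : ∀ i, |z i| + J.length + J'.length + 2 * K + 2 < (l : ℤ) := by
    intro i
    have h1 : (z i).natAbs ≤ ∑ i, (z i).natAbs :=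
      Finset.single_le_sum (f := fun i => (z i).natAbs) (fun _ _ => Nat.zero_le _)
        (Finset.mem_univ i)
    rw [hl, Int.abs_eq_natAbs]
    push_cast
    have h2 : (((z i).natAbs : ℕ) : ℤ) ≤ ((∑ i, (z i).natAbs : ℕ) : ℤ) := by exact_mod_cast h1
    push_cast at h2
    linarith
  have : NeZero l := ⟨by omega⟩
  have h1 := cov_eq (l := l) hB hd J p J' p' (K := K) (Y := z) (Y' := 0) (fun i => by
    simpa using hl' i)
  have h2 := cov_eq (l := l) hB hd J' p' J p (K := K) (Y := 0) (Y' := z) (fun i => by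
    have := hl' i
    simp only [Pi.zero_apply, zero_sub, abs_neg]
    linarith)
  rw [sub_zero] at h1
  rw [zero_sub] at h2
  rw [← h1, ← h2, ipF_comm]

lemma mcD_lim (hT : S_TR) (hd : 3 ≤ d) (J : List (Fin d)) (p : Fin d × Fin d)
    (J' : List (Fin d)) (p' : Fin d × Fin d) (z : Fin d → ℤ) :
    Tendsto (fun K => mcD (gK d K) J p J' p' z) atTop (𝓝 (mcD (green d) J p J' p' z)) := by
  obtain ⟨CT, hCT, _, hg, hgK⟩ := hT d hd
  rw [tendsto_iff_norm_sub_tendsto_zero]
  have h1 : Tendsto (fun K : ℕ => (2:ℝ) ^ J.length * (2 ^ J'.length * (16 * (CT / Real.sqrt K))))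
      atTop (𝓝 0) := by
    have h2 : Tendsto (fun K : ℕ => CT / Real.sqrt K) atTop (𝓝 0) :=
      tendsto_const_nhds.div_atTop (Real.tendsto_sqrt_atTop.comp tendsto_natCast_atTop_atTop)
    have h3 := ((h2.const_mul 16).const_mul ((2:ℝ) ^ J'.length)).const_mul ((2:ℝ) ^ J.length)
    simpa using h3
  refine squeeze_zero' (Eventually.of_forall fun K => norm_nonneg _) ?_ h1
  filter_upwards [eventually_ge_atTop 1] with K hK
  rw [Real.norm_eq_abs, mcD_sub]
  exact mcD_le (by positivity) (fun z => hgK K z hK) J p J' p' z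

lemma mcD_symm (hB : S_B2) (hT : S_TR) (hd : 3 ≤ d) (J : List (Fin d)) (p : Fin d × Fin d)
    (J' : List (Fin d)) (p' : Fin d × Fin d) (z : Fin d → ℤ) :
    mcD (green d) J p J' p' z = mcD (green d) J' p' J p (-z) := by
  refine tendsto_nhds_unique (mcD_lim hT hd J p J' p' z) ?_
  have h := mcD_lim hT hd J' p' J p (-z)
  refine h.congr fun K => ?_
  rw [mcD_symmK hB (by omega)]
  rw [neg_neg]

lemma AC_symm {ι : Type} (hB : S_B2) (hT : S_TR) (hd : 3 ≤ d) (J : ι → List (Fin d))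
    (p : ι → Fin d × Fin d) (Y : ι → Fin d → ℤ) (c : ι → Fin n) (u v : ι) :
    AC (green d) J p Y c u v = AC (green d) J p Y c v u := by
  unfold AC
  by_cases h : c u = c v
  · rw [if_pos h, if_pos h.symm, mcD_symm hB hT hd, neg_sub]
  · rw [if_neg h, if_neg (fun h' => h h'.symm)]

end symm

variable {G : Type} [Group G] [TopologicalSpace G] [IsTopologicalGroup G] [CompactSpace G]
  [SecondCountableTopology G] [MeasurableSpace G] [BorelSpace G] (μ : Measure G)
  [IsProbabilityMeasure μ] [μ.IsMulLeftInvariant] [μ.IsMulRightInvariant] [μ.IsInvInvariant]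
  {N n : ℕ} {L : LD G N n} {d l : ℕ} [NeZero l] {k : ℕ} {m : Fin k → ℕ}

/-- The legs -/
abbrev Lg {k : ℕ} (m : Fin k → ℕ) := (r : Fin k) × Fin (m r)

variable (L) in
/-- the Wick ordered invariant local field on the torus -/
def OG (b : ℝ) (J : Lg m → List (Fin d)) (p : Lg m → Fin d × Fin d)
    (T : (r : Fin k) → (Fin (m r) → Fin n) → ℝ) (y : Fin k → St d l) (r : Fin k)
    (U : Ed d l → G) : ℝ :=
  WT (fun j j' => mcD (green d) (J ⟨r, j⟩) (p ⟨r, j⟩) (J ⟨r, j'⟩) (p ⟨r, j'⟩) 0) (T r)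
    (fun j α => -(b ^ 2 * cD L U (J ⟨r, j⟩) (p ⟨r, j⟩) (y r) α))

variable (L) in
/-- invariant coefficients -/
def TInv (T : (r : Fin k) → (Fin (m r) → Fin n) → ℝ) : Prop :=
  ∀ (r : Fin k) (g : G) (c : Fin (m r) → Fin n),
    T r c = ∑ b : Fin (m r) → Fin n, (∏ j, L.adm g (b j) (c j)) * T r b

lemma OG_eq (hI : S_INV) (b : ℝ) (J : Lg m → List (Fin d)) (p : Lg m → Fin d × Fin d)
    (T : (r : Fin k) → (Fin (m r) → Fin n) → ℝ) (hTi : TInv L T) (Y : Fin k → Fin d → ℤ)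
    (r : Fin k) (U : Ed d l → G) :
    OG L b J p T (fun r => zt l (Y r)) r U = ∑ c : Fin (m r) → Fin n, T r c *
      wpr (fun i j => if c i = c j then
        mcD (green d) (J ⟨r, i⟩) (p ⟨r, i⟩) (J ⟨r, j⟩) (p ⟨r, j⟩) 0 else 0)
        (fun j => -(b ^ 2 * bD L U (J ⟨r, j⟩) (p ⟨r, j⟩) (zt l (Y r)) (c j)))
        (List.finRange (m r)) := by
  unfold OG
  rw [← hI n (m r) _ (T r) (fun b a => L.adm (Pc U (zt l (Y r))) b a) _
    (fun b b' => sum_adm_adm _ _ _) (fun c => hTi r _ c)]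
  unfold WT
  refine Finset.sum_congr rfl fun c _ => ?_
  congr 2
  funext j
  unfold bD
  rw [Finset.mul_sum, ← Finset.sum_neg_distrib]
  refine Finset.sum_congr rfl fun a _ => ?_
  ring

lemma prod_OG (hI : S_INV) (b : ℝ) (J : Lg m → List (Fin d)) (p : Lg m → Fin d × Fin d)
    (T : (r : Fin k) → (Fin (m r) → Fin n) → ℝ) (hTi : TInv L T) (Y : Fin k → Fin d → ℤ)
    (U : Ed d l → G) :
    ∏ r, OG L b J p T (fun r => zt l (Y r)) r U = ∑ c : (r : Fin k) → Fin (m r) → Fin n,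
      (∏ r, T r (c r)) * ∏ r, wpr (AC (green d) J p (fun u => Y u.1) (fun u => c u.1 u.2))
        (fun u => PG L b J p (fun u => zt l (Y u.1)) (fun u => c u.1 u.2) u U) (lr m r) := by
  classical
  simp only [OG_eq hI b J p T hTi Y]
  rw [Finset.prod_univ_sum, Fintype.piFinset_univ]
  refine Finset.sum_congr rfl fun c _ => ?_
  rw [Finset.prod_mul_distrib]
  congr 1
  refine Finset.prod_congr rfl fun r _ => ?_
  unfold lr
  rw [wpr_map _ _ _ _ _ le_rfl]
  congr 1
  funext i j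
  unfold AC
  rw [sub_self]

lemma wprod_cont (b : ℝ) (J : Lg m → List (Fin d)) (p : Lg m → Fin d × Fin d)
    (y : Lg m → St d l) (c : Lg m → Fin n) (q : List (Lg m)) :
    Continuous fun U : Ed d l → G => (q.map fun u => PG L b J p y c u U).prod :=
  continuous_list_prod _ fun u _ => PG_cont b J p y c u

/-- the limit on the lattice -/
def SL (n : ℕ) (J : Lg m → List (Fin d)) (p : Lg m → Fin d × Fin d)
    (T : (r : Fin k) → (Fin (m r) → Fin n) → ℝ) (Y : Fin k → Fin d → ℤ) : ℝ :=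
  ∑ c : (r : Fin k) → Fin (m r) → Fin n, (∏ r, T r (c r)) *
    haf (fun u v => if u.1 = v.1 then 0 else
      AC (green d) J p (fun u => Y u.1) (fun u => c u.1 u.2) u v) (al m)

theorem corrJ0 (hd : 3 ≤ d) (hB : S_B2) (hT : S_TR) (hW : S_W1) (hH : S_HAF) (hW3 : S_W3)
    (hW4 : S_W4) (hI : S_INV) (J : Lg m → List (Fin d)) (p₀ : ℕ) :
    ∃ (κ₀ : ℕ) (C : ℝ), 1 ≤ κ₀ ∧ 0 < C ∧
      ∀ a : ℕ, 1 ≤ a → (∀ u, (J u).length ≤ a) → ∀ b : ℝ,
      (a : ℝ) ^ (4 * κ₀ * (2 * d + 3) + κ₀) ≤ b → b ≤ (2 * a) ^ (4 * κ₀ * (2 * d + 3) + κ₀) →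
      ∀ (s : ℕ) [NeZero s], 2 * (3 * a) ^ (4 * κ₀) ≤ s →
      ∀ p : Lg m → Fin d × Fin d, (∀ u, (p u).1 ≠ (p u).2) →
      ∀ T : (r : Fin k) → (Fin (m r) → Fin n) → ℝ, TInv L T →
      ∀ Y : Fin k → Fin d → ℤ, (∀ r i, (((3 * a) ^ (4 * κ₀) : ℕ) : ℤ) + 2 ≤ Y r i ∧
        Y r i + a < 2 * (((3 * a) ^ (4 * κ₀) : ℕ) : ℤ) + 2) → (∀ r r' i, |Y r i - Y r' i| ≤ 2 * a) →
        |EX μ L (b ^ 4) (fun U : Ed d (2 * s) → G =>
          ∏ r, OG L b J p T (fun r => zt _ (Y r)) r U) - SL n J p T Y| ≤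
          C * (∑ c : (r : Fin k) → Fin (m r) → Fin n, ∏ r, |T r (c r)|) / a ^ p₀ := by
  classical
  obtain ⟨κ₀, C, CT, hκ₀, hC, hCT, hg, hmain⟩ := mom_cov μ (L := L) hd hB hT hW hH J p₀
  obtain ⟨hhaf, _⟩ := hH
  have hJ0 := cJ_nonneg J
  obtain ⟨B₁, hB₁⟩ : ∃ B₁, B₁ = 1 + cJ J * CT := ⟨_, rfl⟩
  have hB1 : 1 ≤ B₁ := by
    rw [hB₁]
    have : 0 ≤ cJ J * CT := by positivity
    linarith
  obtain ⟨t, ht⟩ : ∃ t, t = Fintype.card (Lg m) := ⟨_, rfl⟩
  obtain ⟨H, hHe⟩ : ∃ H : ℝ, H = t.factorial * B₁ ^ t := ⟨_, rfl⟩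
  have hH0 : 0 < H := by rw [hHe]; positivity
  refine ⟨κ₀, 2 ^ t * H ^ k * C, hκ₀, by positivity,
    fun a ha hJa b hab hba s _ hs p hp T hTi Y hY hYY => ?_⟩
  have ha0 : (0:ℝ) < a := by exact_mod_cast ha
  obtain ⟨A, hA⟩ : ∃ A : ((r : Fin k) → Fin (m r) → Fin n) → Lg m → Lg m → ℝ,
    A = fun c => AC (green d) J p (fun u => Y u.1) (fun u => c u.1 u.2) := ⟨_, rfl⟩
  obtain ⟨Ψ, hΨ⟩ : ∃ Ψ : ((r : Fin k) → Fin (m r) → Fin n) → Lg m → (Ed d (2 * s) → G) → ℝ,
    Ψ = fun c => PG L b J p (fun u => zt (2 * s) (Y u.1)) (fun u => c u.1 u.2) := ⟨_, rfl⟩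
  have hmom : ∀ (c : (r : Fin k) → Fin (m r) → Fin n) (q : List (Lg m)), q.Nodup →
      |EX μ L (b ^ 4) (fun U : Ed d (2 * s) → G => (q.map fun u => Ψ c u U).prod) -
        haf (A c) q| ≤ C / a ^ p₀ := by
    intro c q hq
    rw [hΨ, hA]
    exact hmain a ha hJa b hab hba s hs p hp (fun u => Y u.1) (fun u i => hY u.1 i)
      (fun u v i => hYY u.1 v.1 i) (fun u => c u.1 u.2) q hq
  have hcont : ∀ c (q : List (Lg m)), Continuous fun U : Ed d (2 * s) → G =>
      (q.map fun u => Ψ c u U).prod := by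
    intro c q
    rw [hΨ]
    exact wprod_cont b J p _ _ q
  have hexp : (fun U : Ed d (2 * s) → G => ∏ r, OG L b J p T (fun r => zt _ (Y r)) r U) =
      fun U => ∑ c : (r : Fin k) → Fin (m r) → Fin n, ∑ S : Finset (Lg m),
        ((∏ r, T r (c r)) * ∏ r, haf (fun u v => -A c u v) ((lr m r).filter (· ∈ S))) *
          (((al m).filter (· ∉ S)).map fun u => Ψ c u U).prod := by
    funext U
    rw [prod_OG hI b J p T hTi Y U]
    refine Finset.sum_congr rfl fun c _ => ?_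
    rw [prod_wick hW3, Finset.mul_sum]
    refine Finset.sum_congr rfl fun S _ => ?_
    rw [hA, hΨ, mul_assoc]
  have hE : EX μ L (b ^ 4) (fun U : Ed d (2 * s) → G =>
      ∏ r, OG L b J p T (fun r => zt _ (Y r)) r U) =
      ∑ c : (r : Fin k) → Fin (m r) → Fin n, ∑ S : Finset (Lg m),
        ((∏ r, T r (c r)) * ∏ r, haf (fun u v => -A c u v) ((lr m r).filter (· ∈ S))) *
          EX μ L (b ^ 4) (fun U : Ed d (2 * s) → G =>
            (((al m).filter (· ∉ S)).map fun u => Ψ c u U).prod) := by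
    have hc1 : ∀ (c : (r : Fin k) → Fin (m r) → Fin n) (S : Finset (Lg m)),
        Continuous fun U : Ed d (2 * s) → G => ((∏ r, T r (c r)) *
          ∏ r, haf (fun u v => -A c u v) ((lr m r).filter (· ∈ S))) *
          (((al m).filter (· ∉ S)).map fun u => Ψ c u U).prod := fun c S =>
      continuous_const.mul (hcont c _)
    have hc2 : ∀ (c : (r : Fin k) → Fin (m r) → Fin n),
        Continuous fun U : Ed d (2 * s) → G => ∑ S : Finset (Lg m), ((∏ r, T r (c r)) *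
          ∏ r, haf (fun u v => -A c u v) ((lr m r).filter (· ∈ S))) *
          (((al m).filter (· ∉ S)).map fun u => Ψ c u U).prod := fun c =>
      continuous_finsetSum _ fun S _ => hc1 c S
    have e1 := EX_sum μ (L := L) (β := b ^ 4) Finset.univ fun c _ => hc2 c
    rw [hexp]
    refine e1.trans (Finset.sum_congr rfl fun c _ => ?_)
    have e2 := EX_sum μ (L := L) (β := b ^ 4) Finset.univ fun S _ => hc1 c S
    refine e2.trans (Finset.sum_congr rfl fun S _ => ?_)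
    exact EX_smul μ _ _
  have hlim : SL n J p T Y = ∑ c : (r : Fin k) → Fin (m r) → Fin n, ∑ S : Finset (Lg m),
      ((∏ r, T r (c r)) * ∏ r, haf (fun u v => -A c u v) ((lr m r).filter (· ∈ S))) *
        haf (A c) ((al m).filter (· ∉ S)) := by
    unfold SL
    refine Finset.sum_congr rfl fun c _ => ?_
    have h1 := hW4 k m (A c) (fun u v => by
      rw [hA]; exact AC_symm hB hT hd _ _ _ _ _ _)
    rw [hA] at h1 ⊢
    rw [← h1, Finset.mul_sum]
    exact Finset.sum_congr rfl fun S _ => by ring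
  have hAb : ∀ c u v, |-A c u v| ≤ B₁ := by
    intro c u v
    rw [abs_neg, hA]
    refine (AC_le hCT.le hg J p _ _ u v).trans ?_
    rw [hB₁]; linarith
  have hH1 : ∀ c (r : Fin k) (S : Finset (Lg m)),
      |haf (fun u v => -A c u v) ((lr m r).filter (· ∈ S))| ≤ H := by
    intro c r S
    refine (hhaf _ _ B₁ _ hB1 (hAb c)).trans ?_
    have h1 : ((lr m r).filter (· ∈ S)).length ≤ t := by
      rw [ht]
      exact ((nodup_lr r).filter _).length_le_card
    rw [hHe]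
    have f2 : ((((lr m r).filter (· ∈ S)).length.factorial : ℕ) : ℝ) ≤ t.factorial := by
      exact_mod_cast Nat.factorial_le h1
    have f3 : B₁ ^ ((lr m r).filter (· ∈ S)).length ≤ B₁ ^ t := pow_le_pow_right₀ hB1 h1
    gcongr
  rw [hE, hlim, ← Finset.sum_sub_distrib]
  refine (Finset.abs_sum_le_sum_abs _ _).trans ?_
  rw [mul_div_right_comm, Finset.mul_sum]
  refine Finset.sum_le_sum fun c _ => ?_
  rw [← Finset.sum_sub_distrib]
  refine (Finset.abs_sum_le_sum_abs _ _).trans ?_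
  calc ∑ S : Finset (Lg m), |((∏ r, T r (c r)) *
        ∏ r, haf (fun u v => -A c u v) ((lr m r).filter (· ∈ S))) *
          EX μ L (b ^ 4) (fun U : Ed d (2 * s) → G =>
            (((al m).filter (· ∉ S)).map fun u => Ψ c u U).prod) -
        ((∏ r, T r (c r)) * ∏ r, haf (fun u v => -A c u v) ((lr m r).filter (· ∈ S))) *
        haf (A c) ((al m).filter (· ∉ S))| ≤
      ∑ _S : Finset (Lg m), ((∏ r, |T r (c r)|) * H ^ k) * (C / a ^ p₀) := by
        refine Finset.sum_le_sum fun S _ => ?_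
        rw [← mul_sub, abs_mul, abs_mul, Finset.abs_prod, Finset.abs_prod]
        have h1 : ∏ r, |haf (fun u v => -A c u v) ((lr m r).filter (· ∈ S))| ≤ H ^ k := by
          calc _ ≤ ∏ _r : Fin k, H :=
                Finset.prod_le_prod (fun r _ => abs_nonneg _) fun r _ => hH1 c r S
            _ = H ^ k := by rw [Finset.prod_const, Finset.card_univ, Fintype.card_fin]
        have h2 : 0 ≤ ∏ r, |T r (c r)| := Finset.prod_nonneg fun r _ => abs_nonneg _
        refine mul_le_mul (mul_le_mul_of_nonneg_left h1 h2) (hmom c _ (nodup_al.filter _))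
          (abs_nonneg _) (by positivity)
    _ = _ := by
        rw [Finset.sum_const, Finset.card_univ, Fintype.card_finset, ← ht, nsmul_eq_mul]
        push_cast
        ring

end

end Pool.Agent.TH940.YM
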