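import Mathlib
import Pool.Agent.TH940.YM.Tor
import Pool.Agent.W793.SCH.Lift5

/-!
# The correlation functions of the Wick ordered local fields: the scaling limit
-/

open MeasureTheory Matrix Filter Pool.Agent.H906R3.YM Pool.Agent.W793.YM Pool.Agent.W793.SCHL
open scoped Matrix.Norms.Frobenius Topology
open Pool.Agent.W793.SCH (haf Near pk gK DD mx el TK S_B1 S_B2 S_TR S_W1 S_HAF green hess
  plaq_moment2)

namespace Pool.Agent.TH940.YM

set_option linter.unusedSectionVars false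
set_option linter.unusedVariables false

noncomputable section

section diff

variable {d : ℕ}

lemma dF_append (J J' : List (Fin d)) (h : (Fin d → ℤ) → ℝ) (z : Fin d → ℤ) :
    dF J (dF J' h) z = dF (J ++ J') h z := by
  induction J generalizing z with
  | nil => rfl
  | cons i J ih =>
    show dF J (dF J' h) (z + Pi.single i 1) - dF J (dF J' h) z =
      dF (J ++ J') h (z + Pi.single i 1) - dF (J ++ J') h z
    rw [ih, ih]

lemma dF_shift (J : List (Fin d)) (h : (Fin d → ℤ) → ℝ) (w z : Fin d → ℤ) :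
    dF J (fun z => h (z - w)) z = dF J h (z - w) := by
  induction J generalizing z with
  | nil => rfl
  | cons i J ih =>
    show dF J _ (z + Pi.single i 1) - dF J _ z = dF J h (z - w + Pi.single i 1) - dF J h (z - w)
    rw [ih, ih, sub_add_eq_add_sub]

lemma dF_smul (J : List (Fin d)) (c : ℝ) (h : (Fin d → ℤ) → ℝ) (z : Fin d → ℤ) :
    dF J (fun z => c * h z) z = c * dF J h z := by
  induction J generalizing z with
  | nil => rfl
  | cons i J ih =>
    show dF J _ (z + Pi.single i 1) - dF J _ z = c * (dF J h (z + Pi.single i 1) - dF J h z)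
    rw [ih, ih]; ring

/-- the sum of the unit vectors -/
def eS : List (Fin d) → Fin d → ℤ
  | [] => 0
  | i :: J => eS J + Pi.single i 1

lemma dB_eq (J : List (Fin d)) (h : (Fin d → ℤ) → ℝ) (z : Fin d → ℤ) :
    dB J h z = (-1) ^ J.length * dF J h (z - eS J) := by
  induction J generalizing z with
  | nil => simp [dB, dF, eS]
  | cons i J ih =>
    show dB J h (z - Pi.single i 1) - dB J h z = (-1) ^ (J.length + 1) *
      (dF J h (z - (eS J + Pi.single i 1) + Pi.single i 1) -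
        dF J h (z - (eS J + Pi.single i 1)))
    rw [ih, ih]
    have e1 : z - Pi.single i 1 - eS J = z - (eS J + Pi.single i 1) := by abel
    have e2 : z - (eS J + Pi.single i 1) + Pi.single i 1 = z - eS J := by abel
    rw [e1, e2]
    ring

lemma dF_mx (J : List (Fin d)) (h : Fin d → Fin d → (Fin d → ℤ) → ℝ) (i j p q : Fin d)
    (z : Fin d → ℤ) : dF J (fun z => mx (fun a b => h a b z) i j p q) z =
      mx (fun a b => dF J (h a b) z) i j p q := by
  induction J generalizing z with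
  | nil => rfl
  | cons s J ih =>
    show dF J _ (z + Pi.single s 1) - dF J _ z =
      mx (fun a b => dF J (h a b) (z + Pi.single s 1) - dF J (h a b) z) i j p q
    rw [ih, ih, mx_sub]

lemma mcD_eq (g : (Fin d → ℤ) → ℝ) (J : List (Fin d)) (p : Fin d × Fin d) (J' : List (Fin d))
    (p' : Fin d × Fin d) (z : Fin d → ℤ) :
    mcD g J p J' p' z = (-1) ^ J'.length *
      mx (fun a b => dF (J ++ J') (DD a b g) (z - eS J')) p.1 p.2 p'.1 p'.2 := by
  unfold mcD
  have e1 : (dB J' fun z => mx (fun a b => DD a b g z) p.1 p.2 p'.1 p'.2) =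
      fun z => (-1) ^ J'.length * mx (fun a b => dF J' (DD a b g) (z - eS J')) p.1 p.2 p'.1 p'.2 := by
    funext z
    rw [dB_eq, dF_mx]
  rw [e1, dF_smul, dF_mx J (fun a b z => dF J' (DD a b g) (z - eS J'))]
  congr 2
  funext a b
  rw [dF_shift J (dF J' (DD a b g)), dF_append]

lemma haf_scale {ι : Type*} (A : ι → ι → ℝ) (s : ι → ℝ) (t : ℕ) : ∀ q : List ι, q.length ≤ t →
    haf (fun u v => s u * s v * A u v) q = (q.map s).prod * haf A q := by
  induction t with
  | zero =>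
    intro q hq
    have : q = [] := List.length_eq_zero_iff.1 (by omega)
    subst this
    simp only [haf, List.map_nil, List.prod_nil, one_mul]
  | succ t ih =>
    intro q hq
    cases q with
    | nil => simp only [haf, List.map_nil, List.prod_nil, one_mul]
    | cons a q =>
      simp only [haf, List.map_cons, List.prod_cons]
      rw [Finset.mul_sum]
      refine Finset.sum_congr rfl fun i _ => ?_
      have h1 := List.length_eraseIdx_of_lt i.isLt
      simp only [List.length_cons] at hq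
      rw [ih _ (by omega)]
      have h2 : (q.map s).prod = s (q.get i) * ((q.eraseIdx i).map s).prod := by
        have h3 := (List.getElem_cons_eraseIdx_perm i.isLt).map s
        rw [← h3.prod_eq, List.map_cons, List.prod_cons]
        rfl
      rw [h2]; ring

end diff

section lim

variable {d n k : ℕ} {m : Fin k → ℕ}

/-- the scaling factor of a leg -/
def sf (d : ℕ) (q : ℕ) (J : List (Fin d)) : ℝ := Real.sqrt q ^ d * (q : ℝ) ^ J.length

/-- the limiting covariances -/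
def AI {ι : Type} (J : ι → List (Fin d)) (p : ι → Fin d × Fin d)
    (x : ι → Fin d → ℝ) (c : ι → Fin n) (u v : ι) : ℝ :=
  if c u = c v then (-1) ^ (J v).length * mx (fun a b => pD (J u ++ J v) (hess d a b) (x u - x v))
    (p u).1 (p u).2 (p v).1 (p v).2 else 0

/-- the limit -/
def SI (n : ℕ) (J : Lg m → List (Fin d)) (p : Lg m → Fin d × Fin d)
    (T : (r : Fin k) → (Fin (m r) → Fin n) → ℝ) (x : Fin k → Fin d → ℝ) : ℝ :=
  ∑ c : (r : Fin k) → Fin (m r) → Fin n, (∏ r, T r (c r)) *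
    haf (fun u v => if u.1 = v.1 then 0 else
      AI J p (fun u => x u.1) (fun u => c u.1 u.2) u v) (al m)

lemma SL_lim (hd : 3 ≤ d) (hK : S_KERJ) (J : Lg m → List (Fin d)) (p : Lg m → Fin d × Fin d)
    (T : (r : Fin k) → (Fin (m r) → Fin n) → ℝ) (x : Fin k → Fin d → ℝ)
    (hx : Function.Injective x) :
    Tendsto (fun q : ℕ => ((al m).map fun u => sf d q (J u)).prod *
      SL n J p T (fun r i => ⌊(q : ℝ) * x r i⌋)) atTop (𝓝 (SI n J p T x)) := by
  have h1 : ∀ q : ℕ, ((al m).map fun u => sf d q (J u)).prod *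
      SL n J p T (fun r i => ⌊(q : ℝ) * x r i⌋) =
      ∑ c : (r : Fin k) → Fin (m r) → Fin n, (∏ r, T r (c r)) *
        haf (fun u v => sf d q (J u) * sf d q (J v) * (if u.1 = v.1 then 0 else
          AC (green d) J p (fun u => fun i => ⌊(q : ℝ) * x u.1 i⌋) (fun u => c u.1 u.2) u v))
            (al m) := by
    intro q
    unfold SL
    rw [Finset.mul_sum]
    refine Finset.sum_congr rfl fun c _ => ?_
    rw [haf_scale _ (fun u => sf d q (J u)) _ _ le_rfl]
    ring
  simp only [h1]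
  unfold SI
  refine tendsto_finsetSum _ fun c _ => Tendsto.const_mul _ ?_
  refine haf_tendsto (fun u v => ?_) _ _ le_rfl
  by_cases huv : u.1 = v.1
  · simp only [if_pos huv, mul_zero]
    exact tendsto_const_nhds
  · simp only [if_neg huv]
    unfold AC AI
    by_cases hc : c u.1 u.2 = c v.1 v.2
    · simp only [if_pos hc, mcD_eq]
      have h2 : ∀ q : ℕ, sf d q (J u) * sf d q (J v) * ((-1) ^ (J v).length *
          mx (fun a b => dF (J u ++ J v) (DD a b (green d))
            ((fun i => ⌊(q : ℝ) * x u.1 i⌋) - (fun i => ⌊(q : ℝ) * x v.1 i⌋) - eS (J v)))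
            (p u).1 (p u).2 (p v).1 (p v).2) = (-1) ^ (J v).length *
          mx (fun a b => (q : ℝ) ^ (d + (J u ++ J v).length) * dF (J u ++ J v) (DD a b (green d))
            ((fun i => ⌊(q : ℝ) * x u.1 i⌋) - (fun i => ⌊(q : ℝ) * x v.1 i⌋) - eS (J v)))
            (p u).1 (p u).2 (p v).1 (p v).2 := by
        intro q
        rw [← mx_smul]
        have e1 : sf d q (J u) * sf d q (J v) = (q : ℝ) ^ (d + (J u ++ J v).length) := by
          unfold sf
          rw [List.length_append, pow_add, pow_add]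
          have e2 : Real.sqrt q ^ d * Real.sqrt q ^ d = (q : ℝ) ^ d := by
            rw [← mul_pow, Real.mul_self_sqrt (Nat.cast_nonneg q)]
          rw [← e2]; ring
        rw [← e1]; ring
      simp only [h2]
      refine Tendsto.const_mul _ (mx_tendsto (fun a b => ?_) _ _ _ _)
      refine hK d hd (J u ++ J v) a b (x u.1 - x v.1) (sub_ne_zero.2 fun h => huv (hx h)) _
        fun i => ?_
      have h3 := (floor_lim (x u.1 i)).sub (floor_lim (x v.1 i))
      have h4 : Tendsto (fun q : ℕ => ((eS (J v) i : ℤ) : ℝ) / (q : ℝ)) atTop (𝓝 0) :=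
        tendsto_const_div_atTop_nhds_zero_nat _
      have h5 := h3.sub h4
      rw [sub_zero] at h5
      simp only [Pi.sub_apply]
      refine h5.congr fun q => ?_
      push_cast
      ring
    · simp only [if_neg hc, mul_zero]
      exact tendsto_const_nhds

end lim

variable {G : Type} [Group G] [TopologicalSpace G] [IsTopologicalGroup G] [CompactSpace G]
  [SecondCountableTopology G] [MeasurableSpace G] [BorelSpace G] (μ : Measure G)
  [IsProbabilityMeasure μ] [μ.IsMulLeftInvariant] [μ.IsMulRightInvariant] [μ.IsInvInvariant]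
  {N n : ℕ} {L : LD G N n} {d l : ℕ} [NeZero l] {k : ℕ} {m : Fin k → ℕ}

lemma cD_tr (z : St d l) (U : Ed d l → G) (J : List (Fin d)) (p : Fin d × Fin d) (y : St d l)
    (α : Fin n) : cD L (tr z U) J p y α = cD L U J p (y + z) α := by
  induction J generalizing y α with
  | nil =>
    show fi L α (plqT (tr z U) y p.1 p.2) = fi L α (plqT U (y + z) p.1 p.2)
    rw [plqT_tr]
  | cons i J ih =>
    show ∑ β, L.adm (tr z U (y, i)) α β * cD L (tr z U) J p (y + eT i) β - cD L (tr z U) J p y α =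
      ∑ β, L.adm (U (y + z, i)) α β * cD L U J p (y + z + eT i) β - cD L U J p (y + z) α
    simp only [ih, add_right_comm y (eT i) z]
    rfl

lemma OG_tr (b : ℝ) (J : Lg m → List (Fin d)) (p : Lg m → Fin d × Fin d)
    (T : (r : Fin k) → (Fin (m r) → Fin n) → ℝ) (y : Fin k → St d l) (z : St d l) (r : Fin k)
    (U : Ed d l → G) :
    OG L b J p T y r (tr z U) = OG L b J p T (fun r => y r + z) r U := by
  unfold OG
  simp only [cD_tr]

theorem corrJ (hd : 3 ≤ d) (hB : S_B2) (hT : S_TR) (hW : S_W1) (hH : S_HAF) (hW3 : S_W3)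
    (hW4 : S_W4) (hI : S_INV) (J : Lg m → List (Fin d)) (p₀ : ℕ) :
    ∃ (e κ : ℕ) (C : ℝ), 1 ≤ e ∧ κ + 1 ≤ 4 * e ∧ 0 < C ∧
      ∀ a : ℕ, 1 ≤ a → (∀ u, (J u).length ≤ a) → ∀ b : ℝ,
      (a : ℝ) ^ e ≤ b → b ≤ (2 * a) ^ e →
      ∀ (s : ℕ) [NeZero s], 2 * (3 * a) ^ κ ≤ s →
      ∀ p : Lg m → Fin d × Fin d, (∀ u, (p u).1 ≠ (p u).2) →
      ∀ T : (r : Fin k) → (Fin (m r) → Fin n) → ℝ, TInv L T →
      ∀ Y : Fin k → Fin d → ℤ, (∀ r i, |Y r i| ≤ a) →
        |EX μ L (b ^ 4) (fun U : Ed d (2 * s) → G =>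
          ∏ r, OG L b J p T (fun r => zt _ (Y r)) r U) - SL n J p T Y| ≤
          C * (∑ c : (r : Fin k) → Fin (m r) → Fin n, ∏ r, |T r (c r)|) / a ^ p₀ := by
  obtain ⟨κ₀, C, hκ₀, hC, h⟩ := corrJ0 μ (L := L) hd hB hT hW hH hW3 hW4 hI J p₀
  refine ⟨4 * κ₀ * (2 * d + 3) + κ₀, 4 * κ₀, C, by omega, by
    have : 4 * κ₀ ≤ 4 * κ₀ * (2 * d + 3) := Nat.le_mul_of_pos_right _ (by omega)
    omega, hC, fun a ha hJa b hab hba s _ hs p hp T hTi Y hY => ?_⟩
  obtain ⟨K, hK⟩ : ∃ K, K = (3 * a) ^ (4 * κ₀) := ⟨_, rfl⟩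
  have hK81 : 81 * a ≤ K := by
    rw [hK]
    calc 81 * a ≤ (3 * a) ^ 4 := by
          have : (3 * a) ^ 4 = 81 * a * (a ^ 3) := by ring
          rw [this]
          exact Nat.le_mul_of_pos_right _ (by positivity)
      _ ≤ (3 * a) ^ (4 * κ₀) := Nat.pow_le_pow_right (by omega) (by omega)
  obtain ⟨o, ho⟩ : ∃ o : Fin d → ℤ, o = fun _ => (K : ℤ) + 2 + a := ⟨_, rfl⟩
  have h1 := h a ha hJa b hab hba s hs p hp T hTi (fun r => Y r + o) (fun r i => by
    have := abs_le.1 (hY r i)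
    rw [← hK, ho]
    simp only [Pi.add_apply]
    constructor
    · linarith
    · have : (81 * a : ℤ) ≤ K := by exact_mod_cast hK81
      have : (1:ℤ) ≤ a := by exact_mod_cast ha
      linarith [(abs_le.1 (hY r i)).2]) (fun r r' i => by
    have h1 := abs_le.1 (hY r i)
    have h2 := abs_le.1 (hY r' i)
    simp only [Pi.add_apply, add_sub_add_right_eq_sub]
    rw [abs_le]
    constructor <;> linarith [h1.1, h1.2, h2.1, h2.2])
  have e1 : SL n J p T (fun r => Y r + o) = SL n J p T Y := by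
    unfold SL AC
    simp only [add_sub_add_right_eq_sub]
  rw [e1] at h1
  have e2 : ∀ r, (OG L b J p T (fun r => zt (2 * s) (Y r + o)) r : (Ed d (2 * s) → G) → ℝ) =
      fun U => OG L b J p T (fun r => zt (2 * s) (Y r)) r (tr (zt (2 * s) o) U) := by
    intro r
    funext U
    rw [OG_tr]
    have e3 : ∀ r, zt (2 * s) (Y r + o) = zt (2 * s) (Y r) + zt (2 * s) o := by
      intro r
      funext i
      unfold zt
      simp
    simp only [e3]
  simp only [e2] at h1
  have e5 := EX_tr μ (L := L) (β := b ^ 4) (zt (2 * s) o) (fun U : Ed d (2 * s) → G =>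
    ∏ r, OG L b J p T (fun r => zt (2 * s) (Y r)) r U)
  rw [e5] at h1
  exact h1

variable (L) in
/-- the Wick ordered invariant local field on the torus -/
def OB (β : ℝ) (J : Lg m → List (Fin d)) (p : Lg m → Fin d × Fin d)
    (T : (r : Fin k) → (Fin (m r) → Fin n) → ℝ) (y : Fin k → St d l) (r : Fin k)
    (U : Ed d l → G) : ℝ :=
  WT (fun j j' => mcD (green d) (J ⟨r, j⟩) (p ⟨r, j⟩) (J ⟨r, j'⟩) (p ⟨r, j'⟩) 0) (T r)
    (fun j α => -(Real.sqrt β * cD L U (J ⟨r, j⟩) (p ⟨r, j⟩) (y r) α))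

/-- The scaling limit of the correlation functions. -/
theorem schwJ (hd : 3 ≤ d) (hB : S_B2) (hT : S_TR) (hW : S_W1) (hH : S_HAF) (hW3 : S_W3)
    (hW4 : S_W4) (hI : S_INV) (hK : S_KERJ) (J : Lg m → List (Fin d)) :
    ∃ K : ℕ, ∀ p : Lg m → Fin d × Fin d, (∀ u, (p u).1 ≠ (p u).2) →
    ∀ T : (r : Fin k) → (Fin (m r) → Fin n) → ℝ, TInv L T →
    ∀ x : Fin k → Fin d → ℝ, Function.Injective x → ∀ ε : ℝ, 0 < ε → ∃ q₀ : ℕ, ∀ q : ℕ, q₀ ≤ q →
    ∀ β : ℝ, (q : ℝ) ^ K ≤ β → ∀ (s : ℕ) [NeZero s], β ≤ 2 * s →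
      |((al m).map fun u => sf d q (J u)).prod * EX μ L β (fun U : Ed d (2 * s) → G =>
        ∏ r, OB L β J p T (fun r => zt (2 * s) fun i => ⌊(q : ℝ) * x r i⌋) r U) -
        SI n J p T x| ≤ ε := by
  obtain ⟨D, hD⟩ : ∃ D : ℕ, ∀ q : ℕ, 1 ≤ q → ((al m).map fun u => sf d q (J u)).prod ≤ q ^ D := by
    have h0 : ∀ l : List (Lg m), ∃ D : ℕ, ∀ q : ℕ, 1 ≤ q →
        (l.map fun u => sf d q (J u)).prod ≤ q ^ D := by
      intro l
      induction l with
      | nil => exact ⟨0, fun q hq => by simp⟩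
      | cons u l ih =>
        obtain ⟨D, hD⟩ := ih
        refine ⟨d + (J u).length + D, fun q hq => ?_⟩
        have hq1 : (1:ℝ) ≤ q := by exact_mod_cast hq
        rw [List.map_cons, List.prod_cons, pow_add, pow_add]
        refine mul_le_mul ?_ (hD q hq) (List.prod_nonneg fun x hx => ?_) (by positivity)
        · unfold sf
          refine mul_le_mul_of_nonneg_right ?_ (by positivity)
          refine pow_le_pow_left₀ (Real.sqrt_nonneg _) ?_ _
          rw [Real.sqrt_le_left (by linarith)]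
          nlinarith
        · obtain ⟨v, _, rfl⟩ := List.mem_map.1 hx
          unfold sf; positivity
    exact h0 _
  obtain ⟨e, κ, C, he, hκe, hC, hcorr⟩ := corrJ μ (L := L) hd hB hT hW hH hW3 hW4 hI J (D + 1)
  refine ⟨12 * e, fun p hp T hTi x hx ε hε => ?_⟩
  have hlim := SL_lim (n := n) hd hK J p T x hx
  obtain ⟨q₁, hq₁⟩ := Metric.tendsto_atTop.1 hlim (ε / 2) (by positivity)
  obtain ⟨R, hR⟩ : ∃ R : ℕ, ∀ r i, |x r i| + 1 ≤ R := by
    obtain ⟨R, hR⟩ := exists_nat_ge (∑ r, ∑ i, |x r i| + 1)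
    refine ⟨R, fun r i => le_trans ?_ hR⟩
    have h1 : |x r i| ≤ ∑ i, |x r i| :=
      Finset.single_le_sum (f := fun i => |x r i|) (fun _ _ => abs_nonneg _) (Finset.mem_univ i)
    have h2 : ∑ i, |x r i| ≤ ∑ r, ∑ i, |x r i| :=
      Finset.single_le_sum (f := fun r => ∑ i, |x r i|)
        (fun _ _ => Finset.sum_nonneg fun _ _ => abs_nonneg _) (Finset.mem_univ r)
    linarith
  obtain ⟨W₀, hW₀⟩ : ∃ W₀ : ℝ, W₀ = ∑ c : (r : Fin k) → Fin (m r) → Fin n, ∏ r, |T r (c r)| :=
    ⟨_, rfl⟩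
  have hW₀0 : 0 ≤ W₀ := by rw [hW₀]; positivity
  obtain ⟨S, hS⟩ := exists_nat_ge (2 * (C * W₀) / ε)
  obtain ⟨Q, hQ⟩ : ∃ Q : ℕ, ∀ u, (J u).length ≤ Q := by
    refine ⟨∑ u, (J u).length, fun u => ?_⟩
    exact Finset.single_le_sum (f := fun u => (J u).length) (fun _ _ => Nat.zero_le _)
      (Finset.mem_univ u)
  refine ⟨max 1 (max q₁ (max R (max S (max (4 * 3 ^ κ) Q)))), fun q hq β hβ s _ hs => ?_⟩
  have hq1 : 1 ≤ q := (le_max_left _ _).trans hq
  have hq2 := (le_max_right _ _).trans hq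
  have hqq₁ : q₁ ≤ q := (le_max_left _ _).trans hq2
  have hq3 := (le_max_right _ _).trans hq2
  have hqR : R ≤ q := (le_max_left _ _).trans hq3
  have hq4 := (le_max_right _ _).trans hq3
  have hqS : S ≤ q := (le_max_left _ _).trans hq4
  have hq5 := (le_max_right _ _).trans hq4
  have hqκ : 4 * 3 ^ κ ≤ q := (le_max_left _ _).trans hq5
  have hqQ : Q ≤ q := (le_max_right _ _).trans hq5
  have hq1' : (1:ℝ) ≤ q := by exact_mod_cast hq1
  have hq0 : (0:ℝ) < q := by linarith
  obtain ⟨b, a, hb4, hb1, hqa, hab, hba⟩ := scale he hq1 hβ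
  have hqq : q ≤ q ^ 3 := Nat.le_self_pow (by norm_num) q
  have hqa' : q ≤ a := hqq.trans hqa
  have ha1 : 1 ≤ a := hq1.trans hqa'
  have ha1' : (1:ℝ) ≤ a := by exact_mod_cast ha1
  have ha0 : (0:ℝ) < a := by linarith
  have hmκ : 2 * (3 * a) ^ κ ≤ s := by
    have h1 : (a:ℝ) ^ (4 * e) ≤ 2 * s := by
      refine le_trans ?_ hs
      rw [← hb4, mul_comm 4 e, pow_mul]
      exact pow_le_pow_left₀ (by positivity) hab 4
    have h2 : a ^ (4 * e) ≤ 2 * s := by exact_mod_cast h1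
    have h3 : 4 * (3 * a) ^ κ ≤ a ^ (4 * e) := by
      calc 4 * (3 * a) ^ κ = (4 * 3 ^ κ) * a ^ κ := by rw [mul_pow]; ring
        _ ≤ a * a ^ κ := Nat.mul_le_mul_right _ (hqκ.trans hqa')
        _ = a ^ (κ + 1) := by ring
        _ ≤ a ^ (4 * e) := Nat.pow_le_pow_right (by omega) hκe
    omega
  have hY : ∀ r i, |⌊(q:ℝ) * x r i⌋| ≤ (a:ℤ) := by
    intro r i
    have h1 : |((⌊(q:ℝ) * x r i⌋ : ℤ) : ℝ)| ≤ q * |x r i| + 1 := by
      have h2 := Int.floor_le ((q:ℝ) * x r i)
      have h3 := Int.sub_one_lt_floor ((q:ℝ) * x r i)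
      have h4 := abs_le.1 (le_of_eq (abs_mul (q:ℝ) (x r i)))
      rw [abs_of_pos hq0] at h4
      rw [abs_le]
      constructor <;> linarith [h4.1, h4.2]
    have h2 : (q:ℝ) * |x r i| + 1 ≤ a := by
      have h3 : |x r i| + 1 ≤ q := (hR r i).trans (by exact_mod_cast hqR)
      have h4 : ((q ^ 3 : ℕ) : ℝ) ≤ a := by exact_mod_cast hqa
      push_cast at h4
      have h5 : (q:ℝ) * (|x r i| + 1) ≤ q * q := mul_le_mul_of_nonneg_left h3 hq0.le
      have h6 : (q:ℝ) * q ≤ q ^ 3 := by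
        have : (q:ℝ) ^ 3 = q * q * q := by ring
        rw [this]
        exact le_mul_of_one_le_right (by positivity) hq1'
      nlinarith
    have h3 := h1.trans h2
    exact_mod_cast h3
  have hmain := hcorr a ha1 (fun u => ((hQ u).trans hqQ).trans hqa') b hab hba s hmκ p hp T hTi
    (fun r i => ⌊(q:ℝ) * x r i⌋) hY
  rw [hb4, ← hW₀] at hmain
  have hsb : Real.sqrt β = b ^ 2 := by
    rw [← hb4, show b ^ 4 = (b ^ 2) ^ 2 by ring]
    exact Real.sqrt_sq (by positivity)
  have hO : ∀ r, (OG L b J p T (fun r => zt (2 * s) fun i => ⌊(q : ℝ) * x r i⌋) r :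
      (Ed d (2 * s) → G) → ℝ) = OB L β J p T (fun r => zt (2 * s) fun i => ⌊(q : ℝ) * x r i⌋) r := by
    intro r
    funext U
    unfold OG OB
    rw [hsb]
  simp only [hO] at hmain
  obtain ⟨Z, hZ⟩ : ∃ Z, Z = EX μ L β (fun U : Ed d (2 * s) → G =>
        ∏ r, OB L β J p T (fun r => zt (2 * s) fun i => ⌊(q : ℝ) * x r i⌋) r U) := ⟨_, rfl⟩
  obtain ⟨W, hW'⟩ : ∃ W, W = SL n J p T (fun r i => ⌊(q : ℝ) * x r i⌋) := ⟨_, rfl⟩
  obtain ⟨F, hF⟩ : ∃ F : ℝ, F = ((al m).map fun u => sf d q (J u)).prod := ⟨_, rfl⟩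
  have hF0 : 0 ≤ F := by
    rw [hF]
    refine List.prod_nonneg fun x hx => ?_
    obtain ⟨v, _, rfl⟩ := List.mem_map.1 hx
    unfold sf; positivity
  have hFD : F ≤ (q:ℝ) ^ D := by rw [hF]; exact hD q hq1
  rw [← hZ, ← hF]
  rw [← hZ, ← hW'] at hmain
  have h1 := hq₁ q hqq₁
  rw [← hW', ← hF, Real.dist_eq] at h1
  have h2 : |F * Z - F * W| ≤ ε / 2 := by
    rw [← mul_sub, abs_mul, abs_of_nonneg hF0]
    calc F * |Z - W| ≤ (q:ℝ) ^ D * (C * W₀ / a ^ (D + 1)) :=
          mul_le_mul hFD hmain (abs_nonneg _) (by positivity)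
      _ ≤ (q:ℝ) ^ D * (C * W₀ / q ^ (D + 1)) := by
          refine mul_le_mul_of_nonneg_left ?_ (by positivity)
          refine div_le_div_of_nonneg_left (by positivity) (by positivity) ?_
          exact pow_le_pow_left₀ hq0.le (by exact_mod_cast hqa') _
      _ = C * W₀ / q := by rw [pow_succ]; field_simp
      _ ≤ ε / 2 := by
          have h3 : 2 * (C * W₀) / ε ≤ q := hS.trans (by exact_mod_cast hqS)
          rw [div_le_iff₀ hε] at h3
          rw [div_le_iff₀ hq0]
          linarith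
  have h3 := abs_sub_le (F * Z) (F * W) (SI n J p T x)
  linarith

end

end Pool.Agent.TH940.YM
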